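import Mathlib
import Pool.Agent.H295R3.Hoheisel
import Pool.Agent.W218.PF.Second4

set_option autoImplicit false

/-! Counts in short windows. -/

namespace Pool.Agent.W218.SI

open Finset Pool.Agent.Erdos456 Pool.Agent.Erdos456.Mert Pool.Agent.W218.HF Pool.Agent.W218.LF
  Pool.Agent.W218.PF

lemma log_short {X H : ℕ} {δ : ℝ} (hX : 2 ≤ X) (hXH : (X : ℝ) ^ (1 - δ) ≤ H) :
    (1 - δ) * Real.log X ≤ Real.log H := by
  have hX0 : (0 : ℝ) < X := by exact_mod_cast (by omega : 0 < X)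
  rw [← Real.log_rpow hX0]
  exact Real.log_le_log (Real.rpow_pos_of_pos hX0 _) hXH

/-- one value -/
lemma single5 {X H : ℕ} {δ : ℝ} (hδ1 : δ < 1) (hX : 2 ≤ X) (hH : 2 ≤ H)
    (hXH : (X : ℝ) ^ (1 - δ) ≤ H) {G : ℤ} (hG : 0 ≤ G + X) :
    ∑ β ∈ Ioc X (X + H), pr (G + β) ≤ 20 / (1 - δ) * (H / Real.log X) := by
  have hlX : 0 < Real.log X := Real.log_pos (by exact_mod_cast (by omega : 1 < X))
  have hl := log_short hX hXH
  have h1δ : 0 < 1 - δ := by linarith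
  have hlH : 0 < Real.log H := lt_of_lt_of_le (by positivity) hl
  rw [ioc_image, sum_image (fun n _ m _ h => by
      have h' : X + n = X + m := h
      omega)]
  have hN : X + H - X = H := by omega
  rw [hN]
  set e : ℕ := (G + X).toNat with he
  have hee : ((e : ℕ) : ℤ) = G + X := Int.toNat_of_nonneg hG
  have h3 := one_form (t := 1) (e := e) (N := H) le_rfl hH
  have e1 : GG 1 = 1 := by simp [GG]
  rw [e1, mul_one] at h3
  rw [sum_pr]
  have h4 : (Icc 1 H).filter (fun n : ℕ => (G + ((X + n : ℕ) : ℤ)).toNat.Prime) =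
      (Icc 1 H).filter (fun n => (1 * n + e).Prime) := by
    apply filter_congr
    intro n _
    have h5 : G + ((X + n : ℕ) : ℤ) = ((1 * n + e : ℕ) : ℤ) := by
      push_cast; rw [hee]; ring
    rw [h5, Int.toNat_natCast]
  rw [h4]
  refine h3.trans ?_
  calc 20 * ((H : ℝ) / Real.log H) ≤ 20 * ((H : ℝ) / ((1 - δ) * Real.log X)) := by gcongr
    _ = _ := by field_simp

/-- two values -/
theorem pair5 {δ : ℝ} (hδ1 : δ < 1) : ∃ C : ℝ, 0 < C ∧ ∀ (X H : ℕ) (G₁ G₂ : ℤ), 2 ≤ X → 2 ≤ H →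
    (X : ℝ) ^ (1 - δ) ≤ H → G₁ ≠ G₂ → 0 ≤ G₁ + X → 0 ≤ G₂ + X →
    ∑ b ∈ Ioc X (X + H), pr (G₁ + b) * pr (G₂ + b) ≤
      C * GG (G₁ - G₂).natAbs ^ 2 * (H / Real.log X ^ 2) := by
  obtain ⟨C₃, hC₃, hsv⟩ := sieve_two'
  have h1δ : 0 < 1 - δ := by linarith
  refine ⟨C₃ / (1 - δ) ^ 2, by positivity, ?_⟩
  intro X H G₁ G₂ hX hH hXH hne12 hG₁ hG₂
  have hlX : 0 < Real.log X := Real.log_pos (by exact_mod_cast (by omega : 1 < X))
  have hl := log_short hX hXH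
  have hlH : 0 < Real.log H := lt_of_lt_of_le (by positivity) hl
  rw [ioc_image, sum_image (fun n _ m _ h => by
      have h' : X + n = X + m := h
      omega)]
  have hN : X + H - X = H := by omega
  rw [hN]
  set e₁ : ℕ := (G₁ + X).toNat with he₁
  set e₂ : ℕ := (G₂ + X).toNat with he₂
  have hee₁ : ((e₁ : ℕ) : ℤ) = G₁ + X := Int.toNat_of_nonneg hG₁
  have hee₂ : ((e₂ : ℕ) : ℤ) = G₂ + X := Int.toNat_of_nonneg hG₂
  have hkey : ((1 * e₂ : ℕ) : ℤ) - ((1 * e₁ : ℕ) : ℤ) = G₂ - G₁ := by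
    push_cast
    rw [hee₁, hee₂]; ring
  have hne : 1 * e₂ ≠ 1 * e₁ := by
    intro h
    rw [h, sub_self] at hkey
    apply hne12
    linarith
  have h3 := hsv 1 e₁ 1 e₂ H one_pos one_pos (Nat.coprime_one_left _) (Nat.coprime_one_left _) hne hH
  rw [hkey] at h3
  rw [sum_pr_pr]
  have h4 : (Icc 1 H).filter (fun n : ℕ => (G₁ + ((X + n : ℕ) : ℤ)).toNat.Prime ∧
      (G₂ + ((X + n : ℕ) : ℤ)).toNat.Prime) =
      (Icc 1 H).filter (fun n => (1 * n + e₁).Prime ∧ (1 * n + e₂).Prime) := by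
    apply filter_congr
    intro n _
    have h5 : G₁ + ((X + n : ℕ) : ℤ) = ((1 * n + e₁ : ℕ) : ℤ) := by
      push_cast; rw [hee₁]; ring
    have h6 : G₂ + ((X + n : ℕ) : ℤ) = ((1 * n + e₂ : ℕ) : ℤ) := by
      push_cast; rw [hee₂]; ring
    rw [h5, h6, Int.toNat_natCast, Int.toNat_natCast]
  rw [h4]
  refine h3.trans ?_
  have e0 : (G₂ - G₁).natAbs = (G₁ - G₂).natAbs := by omega
  rw [one_mul, one_mul, e0]
  have hsq : ((1 - δ) * Real.log X) ^ 2 ≤ Real.log H ^ 2 := by gcongr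
  calc C₃ * GG (G₁ - G₂).natAbs ^ 2 * H / Real.log H ^ 2
      ≤ C₃ * GG (G₁ - G₂).natAbs ^ 2 * H / ((1 - δ) * Real.log X) ^ 2 := by gcongr
    _ = _ := by field_simp

/-- primes in shifted short windows, from Hoheisel's theorem -/
theorem window5 : ∃ δ η : ℝ, 0 < δ ∧ δ < 1 ∧ 0 < η ∧ ∃ X₀ : ℕ, 4 ≤ X₀ ∧ ∀ X H : ℕ, X₀ ≤ X →
    (X : ℝ) ^ (1 - δ) ≤ H → H ≤ X → 2 ≤ H ∧ ∀ G : ℤ, 2 * |(G : ℝ)| ≤ X →
    η * (H / Real.log X) ≤ ∑ β ∈ Ioc X (X + H), pr (G + β) := by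
  obtain ⟨δ₀, η₀, hδ₀, hδ₀1, hη₀, X₁, hX₁, hho⟩ := Pool.Agent.H295R3.D.hoheisel
  have hpow : ∀ᶠ X : ℕ in Filter.atTop, (16 : ℝ) ≤ (X : ℝ) ^ (δ₀ / 2) :=
    ((tendsto_rpow_atTop (by positivity : 0 < δ₀ / 2)).comp tendsto_natCast_atTop_atTop).eventually_ge_atTop 16
  have hpow2 : ∀ᶠ X : ℕ in Filter.atTop, (4 : ℝ) ≤ (X : ℝ) ^ (1 - δ₀ / 2) :=
    ((tendsto_rpow_atTop (by linarith : 0 < 1 - δ₀ / 2)).comp tendsto_natCast_atTop_atTop).eventually_ge_atTop 4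
  obtain ⟨X₂, hX₂⟩ := Filter.eventually_atTop.1 (hpow.and hpow2)
  refine ⟨δ₀ / 2, η₀ / 8, by positivity, by linarith, by positivity, max X₂ (max (2 * X₁ + 2) 4),
    (le_max_right _ _).trans (le_max_right _ _), ?_⟩
  intro X H hX hH1 hH2
  obtain ⟨hp1, hp2⟩ := hX₂ X ((le_max_left _ _).trans hX)
  have hXX : 2 * X₁ + 2 ≤ X := ((le_max_left _ _).trans (le_max_right _ _)).trans hX
  have hX4 : 4 ≤ X := ((le_max_right _ _).trans (le_max_right _ _)).trans hX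
  have hX4r : (4 : ℝ) ≤ X := by exact_mod_cast hX4
  have hX0 : (0 : ℝ) < X := by linarith
  have hHr4 : (4 : ℝ) ≤ H := hp2.trans hH1
  have hH4 : 4 ≤ H := by exact_mod_cast hHr4
  refine ⟨by omega, ?_⟩
  intro G hG
  have hGabs := abs_le.1 (show |(G : ℝ)| ≤ X / 2 by linarith)
  have hGX0 : 0 ≤ G + X := by
    have : (0 : ℝ) ≤ (G : ℝ) + X := by linarith [hGabs.1]
    exact_mod_cast this
  set j : ℕ := (G + X).toNat with hj
  have hjj : ((j : ℕ) : ℤ) = G + X := Int.toNat_of_nonneg hGX0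
  have hjr : (j : ℝ) = G + X := by exact_mod_cast hjj
  have hj1 : (X : ℝ) / 2 ≤ j := by rw [hjr]; linarith [hGabs.1]
  have hj2 : (j : ℝ) ≤ 2 * X := by rw [hjr]; linarith [hGabs.2]
  have hjX : X ≤ 2 * j := by
    have : (X : ℝ) ≤ 2 * j := by linarith
    exact_mod_cast this
  set Y : ℕ := H / 2 with hY
  have hYr : (H : ℝ) / 4 ≤ Y := by
    have : H ≤ 4 * Y := by omega
    have h : (H : ℝ) ≤ 4 * Y := by exact_mod_cast this
    linarith
  have hYj : Y ≤ j := by omega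
  have hYpow : (j : ℝ) ^ (1 - δ₀) ≤ Y := by
    have h1 : (j : ℝ) ^ (1 - δ₀) ≤ (2 * X : ℝ) ^ (1 - δ₀) :=
      Real.rpow_le_rpow (by linarith) hj2 (by linarith)
    have h2 : (2 * X : ℝ) ^ (1 - δ₀) ≤ 2 * (X : ℝ) ^ (1 - δ₀) := by
      rw [Real.mul_rpow (by norm_num) hX0.le]
      apply mul_le_mul_of_nonneg_right _ (by positivity)
      calc (2 : ℝ) ^ (1 - δ₀) ≤ 2 ^ (1 : ℝ) := Real.rpow_le_rpow_of_exponent_le (by norm_num) (by linarith)
        _ = 2 := Real.rpow_one _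
    have h3 : (X : ℝ) ^ (1 - δ₀) * 16 ≤ (X : ℝ) ^ (1 - δ₀ / 2) := by
      have e : (X : ℝ) ^ (1 - δ₀ / 2) = (X : ℝ) ^ (1 - δ₀) * (X : ℝ) ^ (δ₀ / 2) := by
        rw [← Real.rpow_add hX0]; congr 1; ring
      rw [e]
      exact mul_le_mul_of_nonneg_left hp1 (by positivity)
    have h4 : 0 ≤ (X : ℝ) ^ (1 - δ₀) := by positivity
    linarith
  have h1 := hho j Y (by omega) hYpow hYj
  have hlX : 0 < Real.log X := Real.log_pos (by linarith)
  have hlj : Real.log j ≤ 2 * Real.log X := by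
    have h2 : Real.log j ≤ Real.log ((X : ℝ) ^ 2) := by
      apply Real.log_le_log (by linarith)
      nlinarith
    rw [Real.log_pow] at h2
    push_cast at h2
    exact h2
  have hlj0 : 0 < Real.log j := Real.log_pos (by linarith)
  have hcount : (((Ioc j (j + Y)).filter Nat.Prime).card : ℝ) ≤ ∑ β ∈ Ioc X (X + H), pr (G + β) := by
    rw [sum_pr]
    have h2 : ((Ioc j (j + Y)).filter Nat.Prime).card ≤
        ((Ioc X (X + H)).filter (fun β : ℕ => (G + (β : ℤ)).toNat.Prime)).card := by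
      apply card_le_card_of_injOn (fun p : ℕ => ((p : ℤ) - G).toNat)
      · intro p hp
        simp only [coe_filter, mem_Ioc, Set.mem_setOf_eq] at hp
        simp only [coe_filter, mem_Ioc, Set.mem_setOf_eq]
        have e : G + ((((p : ℤ) - G).toNat : ℕ) : ℤ) = p := by omega
        rw [e, Int.toNat_natCast]
        refine ⟨by omega, hp.2⟩
      · intro p hp q hq h
        simp only [coe_filter, mem_Ioc, Set.mem_setOf_eq] at hp hq
        simp only at h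
        omega
    exact_mod_cast h2
  refine le_trans ?_ (h1.trans hcount)
  rw [le_div_iff₀ hlj0]
  have h5 : (H : ℝ) / Real.log X * Real.log j ≤ 2 * H := by
    calc (H : ℝ) / Real.log X * Real.log j ≤ (H : ℝ) / Real.log X * (2 * Real.log X) := by gcongr
      _ = _ := by field_simp
  calc η₀ / 8 * (H / Real.log X) * Real.log j = η₀ / 8 * (H / Real.log X * Real.log j) := by ring
    _ ≤ η₀ / 8 * (2 * H) := by gcongr
    _ = η₀ * (H / 4) := by ring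
    _ ≤ η₀ * Y := by gcongr

end Pool.Agent.W218.SI
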