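import Mathlib
import Pool.Agent.W218.SI.Main5
import Pool.Agent.W218.PG.Poly

set_option autoImplicit false

/-! Arbitrary dense sets of small integers or primes, constant terms in short intervals. -/

namespace Pool.Agent.W218.SI

open Finset Pool.Agent.Erdos456 Pool.Agent.Erdos456.Mert Pool.Agent.W218.HF Pool.Agent.W218.LF
  Pool.Agent.W218.PF Pool.Agent.W218.PG

/-- the monomials `s_i t^{d_i}` -/
def mon {k : ℕ} (s : Fin k → ℤ) (d : Fin k → ℕ) (i : Fin k) (t : ℕ) : ℤ := s i * (t : ℤ) ^ d i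

lemma mon_abs {k : ℕ} {s : Fin k → ℤ} (hs : ∀ i, s i = 1 ∨ s i = -1) (d : Fin k → ℕ) (i : Fin k) (t : ℕ) :
    |((mon s d i t : ℤ) : ℝ)| = (t : ℝ) ^ d i := by
  unfold mon
  push_cast
  rw [abs_mul]
  have h1 : |((s i : ℤ) : ℝ)| = 1 := by
    rcases hs i with h | h <;> rw [h] <;> simp
  rw [h1, one_mul, abs_of_nonneg (by positivity)]

lemma mon_inj {k : ℕ} {s : Fin k → ℤ} (hs : ∀ i, s i = 1 ∨ s i = -1) {d : Fin k → ℕ} (hd : ∀ i, 1 ≤ d i)
    (i : Fin k) {t₁ t₂ : ℕ} (hne : t₁ ≠ t₂) : mon s d i t₁ ≠ mon s d i t₂ := by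
  intro h
  have h1 := mon_abs hs d i t₁
  rw [h, mon_abs hs d i t₂] at h1
  apply hne
  have h2 : (t₂ : ℕ) ^ d i = t₁ ^ d i := by exact_mod_cast h1
  exact (Nat.pow_left_injective (by have := hd i; omega) h2).symm

lemma mon_eval {k : ℕ} (s : Fin k → ℤ) (d : Fin k → ℕ) (i : Fin k) (t : ℕ) :
    (Polynomial.C (s i) * Polynomial.X ^ d i : Polynomial ℤ).eval (t : ℤ) = mon s d i t := by
  simp [mon]

lemma mon_deg {k : ℕ} {s : Fin k → ℤ} (hs : ∀ i, s i = 1 ∨ s i = -1) {d : Fin k → ℕ} (hd : ∀ i, 1 ≤ d i)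
    (i : Fin k) : 1 ≤ (Polynomial.C (s i) * Polynomial.X ^ d i : Polynomial ℤ).natDegree := by
  have hs0 : s i ≠ 0 := by rcases hs i with h | h <;> rw [h] <;> norm_num
  rw [Polynomial.natDegree_C_mul_X_pow _ _ hs0]
  exact hd i

/-- the products of the logarithms -/
lemma log_prod_ge {k : ℕ} (hk : 1 ≤ k) {X : Fin k → ℕ} {X₀ : ℕ} (h1 : (3 : ℝ) ≤ X₀) (hX : ∀ i, X₀ ≤ X i) :
    Real.log X₀ ≤ ∏ i, Real.log (X i) := by
  have hl : 1 ≤ Real.log X₀ := by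
    rw [Real.le_log_iff_exp_le (by linarith)]
    have := Real.exp_one_lt_d9
    linarith
  calc Real.log X₀ ≤ Real.log X₀ ^ k := le_self_pow₀ hl (by omega)
    _ = ∏ _i : Fin k, Real.log X₀ := by rw [prod_const, card_univ, Fintype.card_fin]
    _ ≤ _ := by
        apply prod_le_prod
        · intro i _; linarith
        · intro i _
          apply Real.log_le_log (by linarith)
          exact_mod_cast hX i

theorem shortI : ∃ δ : ℝ, 0 < δ ∧ δ < 1 ∧ ∀ k : ℕ, 1 ≤ k → ∀ s : Fin k → ℤ, (∀ i, s i = 1 ∨ s i = -1) →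
    ∀ d : Fin k → ℕ, (∀ i, 1 ≤ d i) → ∀ c ρ : ℝ, 0 < c → 0 < ρ →
    ∃ κ : ℝ, 0 < κ ∧ ∃ X₀ : ℕ, 4 ≤ X₀ ∧ ∀ X H : Fin k → ℕ, (∀ i, X₀ ≤ X i) →
    (∀ i, (X i : ℝ) ^ (1 - δ) ≤ H i) → (∀ i, H i ≤ X i) →
    ∀ x : ℕ, c * ∏ i, Real.log (X i) ≤ x → (∀ i, 2 * x ^ d i ≤ X i) →
    ∀ T ⊆ Icc 1 x, ρ * x ≤ (T.card : ℝ) →
    κ * ∏ i, (H i : ℝ) ≤ ((((Fintype.piFinset (fun i : Fin k => Ioc (X i) (X i + H i))).filter (fun b =>
      κ * T.card / (∏ i, Real.log (X i)) ≤ primeS (mon s d) b T ∧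
      κ * primeS (mon s d) b T ≤ T.card / (∏ i, Real.log (X i)))).card : ℕ) : ℝ) := by
  classical
  obtain ⟨δ, hδ, hδ1, hmain⟩ := main5
  refine ⟨δ, hδ, hδ1, fun k hk s hs d hd c ρ hc hρ => ?_⟩
  have hmom := fun i => mom_I (2 * k) (by omega) _ (mon_deg hs hd i)
  choose C hC Xm hXm using hmom
  set CC : ℝ := ∑ i, C i with hCC
  have hCi : ∀ i, C i ≤ CC := fun i => single_le_sum (f := C) (fun j _ => (hC j).le) (mem_univ i)
  have hCC0 : 0 ≤ CC := sum_nonneg fun i _ => (hC i).le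
  obtain ⟨κ, hκ, X₁, hX₁, hM⟩ := hmain k hk (1 / (c * ρ)) (CC / ρ ^ 2) (by positivity) (by positivity)
  set Y : ℕ := ∑ i, Xm i + 1 with hY
  refine ⟨κ, hκ, max X₁ ⌈Real.exp ((Y : ℝ) / c)⌉₊, hX₁.trans (le_max_left _ _), ?_⟩
  intro X H hX hXH hHX x hcx hxX T hT hTc
  have hXX₁ : ∀ i, X₁ ≤ X i := fun i => (le_max_left _ _).trans (hX i)
  have h4 : (4 : ℝ) ≤ (max X₁ ⌈Real.exp ((Y : ℝ) / c)⌉₊ : ℕ) := by
    exact_mod_cast hX₁.trans (le_max_left _ _)
  have hl := log_prod_ge hk (by linarith) hX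
  have hYl : (Y : ℝ) / c ≤ Real.log ((max X₁ ⌈Real.exp ((Y : ℝ) / c)⌉₊ : ℕ) : ℝ) := by
    rw [Real.le_log_iff_exp_le (by linarith)]
    exact (Nat.le_ceil _).trans (by exact_mod_cast le_max_right _ _)
  have hYx : (Y : ℝ) ≤ x := by
    have h1 := hYl.trans hl
    rw [div_le_iff₀ hc] at h1
    linarith
  have hYx' : Y ≤ x := by exact_mod_cast hYx
  have hx0 : (0 : ℝ) < x := by
    have : (1 : ℝ) ≤ Y := by rw [hY]; push_cast; linarith [show (0 : ℝ) ≤ ∑ i, (Xm i : ℝ) from sum_nonneg fun i _ => Nat.cast_nonneg _]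
    linarith
  apply hM X H hXX₁ hXH hHX (mon s d) T
  · intro i t ht
    rw [mon_abs hs]
    have h1 := (mem_Icc.1 (hT ht)).2
    have h2 : 2 * t ^ d i ≤ X i := le_trans (by gcongr) (hxX i)
    exact_mod_cast h2
  · intro t₁ _ t₂ _ hne i
    exact mon_inj hs hd i hne
  · intro i
    have h1 := hXm i x (by
      have := single_le_sum (f := Xm) (fun _ _ => Nat.zero_le _) (mem_univ i)
      omega) T hT
    simp only [mon_eval] at h1
    refine h1.trans ?_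
    have h2 : (x : ℝ) ≤ T.card / ρ := by rw [le_div_iff₀ hρ]; linarith
    calc C i * (x : ℝ) ^ 2 ≤ CC * (T.card / ρ) ^ 2 := by
          have := hCi i
          gcongr
      _ = _ := by field_simp
  · have h2 : (x : ℝ) ≤ T.card / ρ := by rw [le_div_iff₀ hρ]; linarith
    calc ∏ i, Real.log (X i) = 1 / c * (c * ∏ i, Real.log (X i)) := by field_simp
      _ ≤ 1 / c * (T.card / ρ) := by
          have := hcx.trans h2
          gcongr
      _ = _ := by field_simp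

theorem shortP : ∃ δ : ℝ, 0 < δ ∧ δ < 1 ∧ ∀ k : ℕ, 1 ≤ k → ∀ s : Fin k → ℤ, (∀ i, s i = 1 ∨ s i = -1) →
    ∀ d : Fin k → ℕ, (∀ i, 1 ≤ d i) → ∀ c ρ : ℝ, 0 < c → 0 < ρ →
    ∃ κ : ℝ, 0 < κ ∧ ∃ X₀ : ℕ, 4 ≤ X₀ ∧ ∀ X H : Fin k → ℕ, (∀ i, X₀ ≤ X i) →
    (∀ i, (X i : ℝ) ^ (1 - δ) ≤ H i) → (∀ i, H i ≤ X i) →
    ∀ x : ℕ, c * ∏ i, Real.log (X i) ≤ x / Real.log x → (∀ i, 2 * x ^ d i ≤ X i) →
    ∀ T ⊆ (Icc 1 x).filter Nat.Prime, ρ * (x / Real.log x) ≤ (T.card : ℝ) →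
    κ * ∏ i, (H i : ℝ) ≤ ((((Fintype.piFinset (fun i : Fin k => Ioc (X i) (X i + H i))).filter (fun b =>
      κ * T.card / (∏ i, Real.log (X i)) ≤ primeS (mon s d) b T ∧
      κ * primeS (mon s d) b T ≤ T.card / (∏ i, Real.log (X i)))).card : ℕ) : ℝ) := by
  classical
  obtain ⟨δ, hδ, hδ1, hmain⟩ := main5
  refine ⟨δ, hδ, hδ1, fun k hk s hs d hd c ρ hc hρ => ?_⟩
  have hmom := fun i => mom_P (2 * k) (by omega) _ (mon_deg hs hd i)
  choose C hC Xm hXm using hmom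
  set CC : ℝ := ∑ i, C i with hCC
  have hCi : ∀ i, C i ≤ CC := fun i => single_le_sum (f := C) (fun j _ => (hC j).le) (mem_univ i)
  have hCC0 : 0 ≤ CC := sum_nonneg fun i _ => (hC i).le
  obtain ⟨κ, hκ, X₁, hX₁, hM⟩ := hmain k hk (1 / (c * ρ)) (CC / ρ) (by positivity) (by positivity)
  set Y : ℕ := ∑ i, Xm i + 3 with hY
  refine ⟨κ, hκ, max X₁ ⌈Real.exp ((Y : ℝ) / c)⌉₊, hX₁.trans (le_max_left _ _), ?_⟩
  intro X H hX hXH hHX x hcx hxX T hT hTc
  have hXX₁ : ∀ i, X₁ ≤ X i := fun i => (le_max_left _ _).trans (hX i)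
  have h4 : (4 : ℝ) ≤ (max X₁ ⌈Real.exp ((Y : ℝ) / c)⌉₊ : ℕ) := by
    exact_mod_cast hX₁.trans (le_max_left _ _)
  have hl := log_prod_ge hk (by linarith) hX
  have hYl : (Y : ℝ) / c ≤ Real.log ((max X₁ ⌈Real.exp ((Y : ℝ) / c)⌉₊ : ℕ) : ℝ) := by
    rw [Real.le_log_iff_exp_le (by linarith)]
    exact (Nat.le_ceil _).trans (by exact_mod_cast le_max_right _ _)
  have hY3 : (3 : ℝ) ≤ Y := by
    rw [hY]; push_cast
    linarith [show (0 : ℝ) ≤ ∑ i, (Xm i : ℝ) from sum_nonneg fun i _ => Nat.cast_nonneg _]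
  have hYx : (Y : ℝ) ≤ x / Real.log x := by
    have h1 := hYl.trans hl
    rw [div_le_iff₀ hc] at h1
    linarith
  have hx3 : 3 ≤ x := by
    by_contra hcon
    have hx2 : x ≤ 2 := by omega
    have h2 : (x : ℝ) / Real.log x < 3 := by
      interval_cases x
      · simp
      · simp
      · have h3 := Real.log_two_gt_d9
        rw [div_lt_iff₀ (by push_cast; linarith)]
        push_cast
        linarith
    linarith
  have hx3r : (3 : ℝ) ≤ x := by exact_mod_cast hx3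
  have hx0 : (0 : ℝ) < x := by linarith
  have hlx1 : 1 ≤ Real.log x := by
    rw [Real.le_log_iff_exp_le hx0]
    have := Real.exp_one_lt_d9
    linarith
  have hXx : (x : ℝ) / Real.log x ≤ x := by
    rw [div_le_iff₀ (by linarith)]
    nlinarith
  have hYx' : Y ≤ x := by exact_mod_cast hYx.trans hXx
  have hxl0 : 0 < (x : ℝ) / Real.log x := by positivity
  have h2 : (x : ℝ) / Real.log x ≤ T.card / ρ := by rw [le_div_iff₀ hρ]; linarith
  apply hM X H hXX₁ hXH hHX (mon s d) T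
  · intro i t ht
    rw [mon_abs hs]
    have h1 := (mem_Icc.1 (mem_filter.1 (hT ht)).1).2
    have h2 : 2 * t ^ d i ≤ X i := le_trans (by gcongr) (hxX i)
    exact_mod_cast h2
  · intro t₁ _ t₂ _ hne i
    exact mon_inj hs hd i hne
  · intro i
    have h1 := hXm i x (by
      have := single_le_sum (f := Xm) (fun _ _ => Nat.zero_le _) (mem_univ i)
      omega) T (by
        intro p hp
        have := hT hp
        simpa [PP] using this)
    simp only [mon_eval] at h1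
    refine h1.trans ?_
    calc C i * ((x : ℝ) / Real.log x) * T.card ≤ CC * (T.card / ρ) * T.card := by
          have := hCi i
          gcongr
      _ = _ := by field_simp
  · calc ∏ i, Real.log (X i) = 1 / c * (c * ∏ i, Real.log (X i)) := by field_simp
      _ ≤ 1 / c * (T.card / ρ) := by
          have := hcx.trans h2
          gcongr
      _ = _ := by field_simp

end Pool.Agent.W218.SI
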