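import Mathlib
import Pool.Agent.H295R3.Hoheisel
import Pool.Agent.W218.PF.Second4

set_option autoImplicit false

/-! Counts in windows `(G, G + H]` much shorter than their position. -/

namespace Pool.Agent.W218.SI

open Finset Pool.Agent.Erdos456 Pool.Agent.Erdos456.Mert Pool.Agent.W218.HF Pool.Agent.W218.LF
  Pool.Agent.W218.PF

lemma ioc_zero (H : ℕ) : Ioc 0 H = Icc 1 H := by
  ext b; simp only [mem_Ioc, mem_Icc]; omega

/-- one value -/
lemma single6 {H : ℕ} (hH : 2 ≤ H) {G : ℤ} (hG : 0 ≤ G) :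
    ∑ β ∈ Ioc 0 H, pr (G + β) ≤ 20 * (H / Real.log H) := by
  set e : ℕ := G.toNat with he
  have hee : ((e : ℕ) : ℤ) = G := Int.toNat_of_nonneg hG
  have h3 := one_form (t := 1) (e := e) (N := H) le_rfl hH
  have e1 : GG 1 = 1 := by simp [GG]
  rw [e1, mul_one] at h3
  rw [sum_pr, ioc_zero]
  have h4 : (Icc 1 H).filter (fun n : ℕ => (G + ((n : ℕ) : ℤ)).toNat.Prime) =
      (Icc 1 H).filter (fun n => (1 * n + e).Prime) := by
    apply filter_congr
    intro n _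
    have h5 : G + ((n : ℕ) : ℤ) = ((1 * n + e : ℕ) : ℤ) := by
      push_cast; rw [hee]; ring
    rw [h5, Int.toNat_natCast]
  rw [h4]
  exact h3

/-- two values -/
theorem pair6 : ∃ C : ℝ, 0 < C ∧ ∀ (H : ℕ) (G₁ G₂ : ℤ), 2 ≤ H → G₁ ≠ G₂ → 0 ≤ G₁ → 0 ≤ G₂ →
    ∑ b ∈ Ioc 0 H, pr (G₁ + b) * pr (G₂ + b) ≤
      C * GG (G₁ - G₂).natAbs ^ 2 * (H / Real.log H ^ 2) := by
  obtain ⟨C₃, hC₃, hsv⟩ := sieve_two'
  refine ⟨C₃, hC₃, ?_⟩
  intro H G₁ G₂ hH hne12 hG₁ hG₂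
  set e₁ : ℕ := G₁.toNat with he₁
  set e₂ : ℕ := G₂.toNat with he₂
  have hee₁ : ((e₁ : ℕ) : ℤ) = G₁ := Int.toNat_of_nonneg hG₁
  have hee₂ : ((e₂ : ℕ) : ℤ) = G₂ := Int.toNat_of_nonneg hG₂
  have hkey : ((1 * e₂ : ℕ) : ℤ) - ((1 * e₁ : ℕ) : ℤ) = G₂ - G₁ := by
    push_cast
    rw [hee₁, hee₂]; ring
  have hne : 1 * e₂ ≠ 1 * e₁ := by
    intro h
    rw [h, sub_self] at hkey
    apply hne12
    linarith
  have h3 := hsv 1 e₁ 1 e₂ H one_pos one_pos (Nat.coprime_one_left _) (Nat.coprime_one_left _) hne hH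
  rw [hkey] at h3
  rw [sum_pr_pr, ioc_zero]
  have h4 : (Icc 1 H).filter (fun n : ℕ => (G₁ + ((n : ℕ) : ℤ)).toNat.Prime ∧
      (G₂ + ((n : ℕ) : ℤ)).toNat.Prime) =
      (Icc 1 H).filter (fun n => (1 * n + e₁).Prime ∧ (1 * n + e₂).Prime) := by
    apply filter_congr
    intro n _
    have h5 : G₁ + ((n : ℕ) : ℤ) = ((1 * n + e₁ : ℕ) : ℤ) := by
      push_cast; rw [hee₁]; ring
    have h6 : G₂ + ((n : ℕ) : ℤ) = ((1 * n + e₂ : ℕ) : ℤ) := by
      push_cast; rw [hee₂]; ring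
    rw [h5, h6, Int.toNat_natCast, Int.toNat_natCast]
  rw [h4]
  refine h3.trans (le_of_eq ?_)
  have e0 : (G₂ - G₁).natAbs = (G₁ - G₂).natAbs := by omega
  rw [one_mul, one_mul, e0]
  ring

/-- primes in short windows, from Hoheisel's theorem -/
theorem window6 : ∃ δ η : ℝ, 0 < δ ∧ δ < 1 ∧ 0 < η ∧ ∃ H₀ : ℕ, 4 ≤ H₀ ∧ ∀ H : ℕ, H₀ ≤ H → ∀ G : ℤ,
    (H : ℤ) ≤ G → ((G : ℤ) : ℝ) ^ (1 - δ) ≤ H →
    η * (H / Real.log H) ≤ ∑ β ∈ Ioc 0 H, pr (G + β) := by
  obtain ⟨δ₀, η₀, hδ₀, hδ₀1, hη₀, X₁, hX₁, hho⟩ := Pool.Agent.H295R3.D.hoheisel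
  refine ⟨δ₀, η₀ * (1 - δ₀), hδ₀, hδ₀1, by
    have : 0 < 1 - δ₀ := by linarith
    positivity, max X₁ 4, le_max_right _ _, ?_⟩
  intro H hH G hG1 hG2
  have hH1 : X₁ ≤ H := (le_max_left _ _).trans hH
  have hH4 : 4 ≤ H := (le_max_right _ _).trans hH
  have hH4r : (4 : ℝ) ≤ H := by exact_mod_cast hH4
  set j : ℕ := G.toNat with hj
  have hjj : ((j : ℕ) : ℤ) = G := Int.toNat_of_nonneg (by omega)
  have hjH : H ≤ j := by omega
  have hjr : (j : ℝ) = ((G : ℤ) : ℝ) := by exact_mod_cast hjj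
  have hj4 : (4 : ℝ) ≤ j := by
    have : (H : ℝ) ≤ j := by exact_mod_cast hjH
    linarith
  have h1 := hho j H (hH1.trans hjH) (by rw [hjr]; exact hG2) hjH
  have hlj0 : 0 < Real.log j := Real.log_pos (by linarith)
  have hlH0 : 0 < Real.log H := Real.log_pos (by linarith)
  have h1δ : 0 < 1 - δ₀ := by linarith
  have hlj : (1 - δ₀) * Real.log j ≤ Real.log H := by
    rw [← Real.log_rpow (by linarith)]
    apply Real.log_le_log (Real.rpow_pos_of_pos (by linarith) _)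
    rw [hjr]; exact hG2
  have hcount : (((Ioc j (j + H)).filter Nat.Prime).card : ℝ) ≤ ∑ β ∈ Ioc 0 H, pr (G + β) := by
    rw [sum_pr]
    have h2 : ((Ioc j (j + H)).filter Nat.Prime).card ≤
        ((Ioc 0 H).filter (fun β : ℕ => (G + (β : ℤ)).toNat.Prime)).card := by
      apply card_le_card_of_injOn (fun p : ℕ => p - j)
      · intro p hp
        have hp' := mem_filter.1 (mem_coe.1 hp)
        have hp1 := mem_Ioc.1 hp'.1
        apply mem_coe.2
        rw [mem_filter, mem_Ioc]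
        have e : (G + ((p - j : ℕ) : ℤ)).toNat = p := by omega
        refine ⟨⟨?_, ?_⟩, ?_⟩
        · show 0 < p - j
          omega
        · show p - j ≤ H
          omega
        · show (G + ((p - j : ℕ) : ℤ)).toNat.Prime
          rw [e]
          exact hp'.2
      · intro p hp q hq h
        have hp' := mem_Ioc.1 (mem_filter.1 (mem_coe.1 hp)).1
        have hq' := mem_Ioc.1 (mem_filter.1 (mem_coe.1 hq)).1
        simp only at h
        omega
    exact_mod_cast h2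
  refine le_trans ?_ (h1.trans hcount)
  rw [le_div_iff₀ hlj0]
  calc η₀ * (1 - δ₀) * (H / Real.log H) * Real.log j = η₀ * H * ((1 - δ₀) * Real.log j / Real.log H) := by
        ring
    _ ≤ η₀ * H * 1 := by
        apply mul_le_mul_of_nonneg_left _ (by positivity)
        rw [div_le_one hlH0]
        exact hlj
    _ = _ := mul_one _

end Pool.Agent.W218.SI
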