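import Mathlib
import Pool.Agent.W218.SI.Short6

set_option autoImplicit false

/-! Many simultaneous prime values in windows much shorter than their position. -/

namespace Pool.Agent.W218.SI

open Finset Pool.Agent.Erdos456 Pool.Agent.Erdos456.Mert Pool.Agent.W218.HF Pool.Agent.W218.LF
  Pool.Agent.W218.PF

theorem second6 (k : ℕ) (hk : 1 ≤ k) : ∃ C : ℝ, 0 < C ∧
    ∀ (H : Fin k → ℕ) (G : Fin k → ℕ → ℤ) (T : Finset ℕ) (A C₃ : ℝ), (∀ i, 2 ≤ H i) →
    0 ≤ A → 0 ≤ C₃ →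
    ∏ i, Real.log (H i) ≤ A * T.card →
    (∀ t ∈ T, ∀ i, 0 ≤ G i t) →
    (∀ t₁ ∈ T, ∀ t₂ ∈ T, t₁ ≠ t₂ → ∀ i, G i t₁ ≠ G i t₂) →
    (∀ i, ∑ t₁ ∈ T, ∑ t₂ ∈ T, GG (G i t₁ - G i t₂).natAbs ^ (2 * k) ≤ C₃ * (T.card : ℝ) ^ 2) →
    ∑ b ∈ Fintype.piFinset (fun i : Fin k => Ioc 0 (H i)),
      (∑ t ∈ T, ∏ i, pr (G i t + b i)) ^ 2 ≤
      C * (A + C₃) * ((T.card : ℝ) ^ 2 * ∏ i, ((H i : ℝ) / Real.log (H i) ^ 2)) := by
  classical
  obtain ⟨C₄, hC₄, hpair⟩ := pair6
  set c1 : ℝ := 20 with hc1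
  have hc10 : 0 < c1 := by positivity
  refine ⟨c1 ^ k + C₄ ^ k * k, by positivity, ?_⟩
  intro H G T A C₃ hH hA hC₃ hlog hTc hinj hdet
  have hlX : ∀ i, 0 < Real.log (H i) := fun i => Real.log_pos (by
    have := hH i
    exact_mod_cast (by omega : 1 < H i))
  set Q : ℝ := ∏ i, ((H i : ℝ) / Real.log (H i) ^ 2) with hQ
  have hQ0 : 0 ≤ Q := prod_nonneg fun i _ => div_nonneg (Nat.cast_nonneg _) (sq_nonneg _)
  set M : ℝ := (T.card : ℝ) with hM
  have hM0 : 0 ≤ M := Nat.cast_nonneg _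
  have hexp : ∑ b ∈ Fintype.piFinset (fun i : Fin k => Ioc 0 (H i)),
      (∑ t ∈ T, ∏ i, pr (G i t + b i)) ^ 2 =
      ∑ t₁ ∈ T, ∑ t₂ ∈ T, ∏ i, ∑ β ∈ Ioc 0 (H i),
        pr (G i t₁ + β) * pr (G i t₂ + β) := by
    have h1 : ∀ b : Fin k → ℕ, (∑ t ∈ T, ∏ i, pr (G i t + b i)) ^ 2 =
        ∑ t₁ ∈ T, ∑ t₂ ∈ T, ∏ i, (pr (G i t₁ + b i) * pr (G i t₂ + b i)) := by
      intro b
      rw [sq, sum_mul_sum]
      apply sum_congr rfl
      intro t₁ _
      apply sum_congr rfl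
      intro t₂ _
      rw [prod_mul_distrib]
    rw [sum_congr rfl fun b _ => h1 b, sum_comm]
    apply sum_congr rfl
    intro t₁ _
    rw [sum_comm]
    apply sum_congr rfl
    intro t₂ _
    rw [Finset.prod_univ_sum]
  rw [hexp]
  have hterm : ∀ t₁ ∈ T, ∀ t₂ ∈ T, ∏ i, ∑ β ∈ Ioc 0 (H i),
        pr (G i t₁ + β) * pr (G i t₂ + β) ≤
      (if t₁ = t₂ then c1 ^ k * (A * M * Q) else 0) +
      C₄ ^ k * Q * ∑ i, GG (G i t₁ - G i t₂).natAbs ^ (2 * k) := by
    intro t₁ h₁ t₂ h₂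
    have hoff0 : 0 ≤ C₄ ^ k * Q * ∑ i, GG (G i t₁ - G i t₂).natAbs ^ (2 * k) := by
      refine mul_nonneg (by positivity) (sum_nonneg fun i _ => ?_)
      exact pow_nonneg (GG_nonneg _) _
    by_cases h12 : t₁ = t₂
    · subst h12
      rw [if_pos rfl]
      have h3 : ∏ i, ∑ β ∈ Ioc 0 (H i), pr (G i t₁ + β) * pr (G i t₁ + β) ≤
          ∏ i : Fin k, (c1 * (Real.log (H i) * ((H i : ℝ) / Real.log (H i) ^ 2))) := by
        apply prod_le_prod
        · intro i _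
          exact sum_nonneg fun β _ => mul_nonneg (pr_nonneg _) (pr_nonneg _)
        · intro i _
          have h4 := single6 (hH i) (hTc t₁ h₁ i)
          have h6 : ∑ β ∈ Ioc 0 (H i), pr (G i t₁ + β) * pr (G i t₁ + β) =
              ∑ β ∈ Ioc 0 (H i), pr (G i t₁ + β) := by
            apply sum_congr rfl
            intro β _
            rw [pr_sq]
          rw [h6]
          refine h4.trans (le_of_eq ?_)
          have := hlX i
          rw [hc1]
          field_simp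
      rw [prod_mul_distrib, prod_const, card_univ, Fintype.card_fin, prod_mul_distrib] at h3
      have h6 : c1 ^ k * ((∏ i, Real.log (H i)) * Q) ≤ c1 ^ k * (A * M * Q) := by
        gcongr
      linarith
    · rw [if_neg h12, zero_add]
      have h3 : ∏ i, ∑ β ∈ Ioc 0 (H i), pr (G i t₁ + β) * pr (G i t₂ + β) ≤
          ∏ i : Fin k, (C₄ * ((H i : ℝ) / Real.log (H i) ^ 2) * GG (G i t₁ - G i t₂).natAbs ^ 2) := by
        apply prod_le_prod
        · intro i _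
          exact sum_nonneg fun β _ => mul_nonneg (pr_nonneg _) (pr_nonneg _)
        · intro i _
          have h4 := hpair (H i) (G i t₁) (G i t₂) (hH i)
            (hinj t₁ h₁ t₂ h₂ h12 i) (hTc t₁ h₁ i) (hTc t₂ h₂ i)
          refine h4.trans (le_of_eq ?_)
          ring
      rw [prod_mul_distrib, prod_mul_distrib, prod_const, card_univ, Fintype.card_fin] at h3
      refine h3.trans ?_
      apply mul_le_mul_of_nonneg_left _ (by positivity)
      refine (prod_le_sum_pow hk _ fun i => sq_nonneg _).trans (le_of_eq ?_)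
      apply sum_congr rfl
      intro i _
      rw [← pow_mul]
  have h1 := sum_le_sum fun t₁ h₁ => sum_le_sum fun t₂ h₂ => hterm t₁ h₁ t₂ h₂
  refine h1.trans ?_
  have e1 : ∑ t₁ ∈ T, ∑ t₂ ∈ T, ((if t₁ = t₂ then c1 ^ k * (A * M * Q) else 0) +
      C₄ ^ k * Q * ∑ i, GG (G i t₁ - G i t₂).natAbs ^ (2 * k)) =
      M * (c1 ^ k * (A * M * Q)) + C₄ ^ k * Q * ∑ i : Fin k, ∑ t₁ ∈ T, ∑ t₂ ∈ T,
        GG (G i t₁ - G i t₂).natAbs ^ (2 * k) := by
    have h2 : ∀ t₁ ∈ T, ∑ t₂ ∈ T, ((if t₁ = t₂ then c1 ^ k * (A * M * Q) else 0) +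
      C₄ ^ k * Q * ∑ i, GG (G i t₁ - G i t₂).natAbs ^ (2 * k)) =
        c1 ^ k * (A * M * Q) + C₄ ^ k * Q * ∑ t₂ ∈ T, ∑ i,
          GG (G i t₁ - G i t₂).natAbs ^ (2 * k) := by
      intro t₁ h₁
      rw [sum_add_distrib, sum_ite_eq, if_pos h₁, ← mul_sum]
    rw [sum_congr rfl h2, sum_add_distrib, sum_const, nsmul_eq_mul, ← mul_sum,
      sum3_comm T (fun t₁ t₂ i => GG (G i t₁ - G i t₂).natAbs ^ (2 * k))]
  rw [e1]
  have h3 : ∑ i : Fin k, ∑ t₁ ∈ T, ∑ t₂ ∈ T, GG (G i t₁ - G i t₂).natAbs ^ (2 * k) ≤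
      k * (C₃ * M ^ 2) := by
    calc _ ≤ ∑ _i : Fin k, C₃ * M ^ 2 := sum_le_sum fun i _ => hdet i
      _ = _ := by rw [sum_const, card_univ, Fintype.card_fin, nsmul_eq_mul]
  calc _ ≤ M * (c1 ^ k * (A * M * Q)) + C₄ ^ k * Q * (k * (C₃ * M ^ 2)) := by
        gcongr
    _ ≤ _ := by
        have p1 : 0 ≤ C₄ ^ k * k * A * (M ^ 2 * Q) := by positivity
        have p2 : 0 ≤ c1 ^ k * C₃ * (M ^ 2 * Q) := by positivity
        have e : (c1 ^ k + C₄ ^ k * k) * (A + C₃) * (M ^ 2 * Q) =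
            M * (c1 ^ k * (A * M * Q)) + C₄ ^ k * Q * (k * (C₃ * M ^ 2)) +
            C₄ ^ k * k * A * (M ^ 2 * Q) + c1 ^ k * C₃ * (M ^ 2 * Q) := by ring
        rw [e]
        linarith

/-- the order of magnitude, for a positive proportion of the vectors of short windows -/
theorem main6 : ∃ δ : ℝ, 0 < δ ∧ δ < 1 ∧ ∀ k : ℕ, 1 ≤ k → ∀ A C₃ : ℝ, 0 < A → 0 ≤ C₃ →
    ∃ κ : ℝ, 0 < κ ∧ ∃ H₀ : ℕ, 4 ≤ H₀ ∧ ∀ H : Fin k → ℕ, (∀ i, H₀ ≤ H i) →
    ∀ (G : Fin k → ℕ → ℤ) (T : Finset ℕ),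
    (∀ i, ∀ t ∈ T, (H i : ℤ) ≤ G i t ∧ ((G i t : ℤ) : ℝ) ^ (1 - δ) ≤ H i) →
    (∀ t₁ ∈ T, ∀ t₂ ∈ T, t₁ ≠ t₂ → ∀ i, G i t₁ ≠ G i t₂) →
    (∀ i, ∑ t₁ ∈ T, ∑ t₂ ∈ T, GG (G i t₁ - G i t₂).natAbs ^ (2 * k) ≤ C₃ * (T.card : ℝ) ^ 2) →
    ∏ i, Real.log (H i) ≤ A * T.card →
    κ * ∏ i, (H i : ℝ) ≤ ((((Fintype.piFinset (fun i : Fin k => Ioc 0 (H i))).filter (fun b =>
      κ * T.card / (∏ i, Real.log (H i)) ≤ primeS G b T ∧
      κ * primeS G b T ≤ T.card / (∏ i, Real.log (H i)))).card : ℕ) : ℝ) := by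
  classical
  obtain ⟨δ, η₀, hδ, hδ1, hη₀, X₀, hX₀, hwin⟩ := window6
  refine ⟨δ, hδ, hδ1, fun k hk A C₃ hA hC₃ => ?_⟩
  obtain ⟨C₂', hC₂', hsecond⟩ := second6 k hk
  set C₂ : ℝ := C₂' * (A + C₃) with hC₂def
  have hC₂ : 0 < C₂ := by positivity
  set η : ℝ := min η₀ 1 ^ k with hη
  have hη0 : 0 < η := by
    have : 0 < min η₀ 1 := lt_min hη₀ one_pos
    positivity
  have hη1 : η ≤ 1 := pow_le_one₀ (by positivity) (min_le_right _ _)
  set κ₁ : ℝ := min (η / 4) (η / (4 * C₂)) with hκ₁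
  have hκ₁0 : 0 < κ₁ := by positivity
  have hκ₁a : κ₁ ≤ η / 4 := min_le_left _ _
  have hκ₁b : κ₁ * C₂ ≤ η / 4 := by
    calc κ₁ * C₂ ≤ η / (4 * C₂) * C₂ := by gcongr; exact min_le_right _ _
      _ = _ := by field_simp
  refine ⟨κ₁ * (η / 2), by positivity, X₀, hX₀, ?_⟩
  intro H hX G T hval hinj hdet hlogk
  have hX4 : ∀ i, 4 ≤ H i := fun i => hX₀.trans (hX i)
  have hH2 : ∀ i, 2 ≤ H i := fun i => by have := hX4 i; omega
  have hlX : ∀ i, 0 < Real.log (H i) := fun i => Real.log_pos (by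
    have := hX4 i
    exact_mod_cast (by omega : 1 < H i))
  set P : ℝ := ∏ i, Real.log (H i) with hP
  have hP0 : 0 < P := prod_pos fun i _ => hlX i
  set M : ℝ := (T.card : ℝ) with hM
  have hM0 : 0 < M := by
    have h1 : 0 < A * M := lt_of_lt_of_le hP0 hlogk
    exact pos_of_mul_pos_right h1 hA.le
  have hS := hsecond H G T A C₃ hH2 hA.le hC₃ hlogk
    (by
      intro t ht i
      have h1 := (hval i t ht).1
      omega) hinj hdet
  rw [← hC₂def] at hS
  set PB := Fintype.piFinset (fun i : Fin k => Ioc 0 (H i)) with hPB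
  set N' : (Fin k → ℕ) → ℝ := fun b => ∑ t ∈ T, ∏ i, pr (G i t + b i) with hN'
  have hN'eq : ∀ b, N' b = primeS G b T := fun b => (primeS_eq G b T).symm
  have hN'0 : ∀ b, 0 ≤ N' b := fun b => by rw [hN'eq]; exact Nat.cast_nonneg _
  set HH : ℝ := ∏ i, (H i : ℝ) with hHH
  have hHH0 : 0 < HH := prod_pos fun i _ => by
    have := hH2 i
    exact_mod_cast (by omega : 0 < H i)
  set R : ℝ := HH / P with hR
  have hR0 : 0 < R := by positivity
  have hRprod : ∏ i, ((H i : ℝ) / Real.log (H i)) = R := by rw [prod_div_distrib]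
  have hQprod : ∏ i, ((H i : ℝ) / Real.log (H i) ^ 2) = R / P := by
    rw [prod_div_distrib, prod_pow, hR, hP, hHH]
    field_simp
  rw [hQprod] at hS
  -- first moment
  have hF : η * (R * M) ≤ ∑ b ∈ PB, N' b := by
    have hswap : ∑ t ∈ T, ∏ i, ∑ β ∈ Ioc 0 (H i), pr (G i t + β) = ∑ b ∈ PB, N' b := by
      simp only [hN']
      rw [sum_comm]
      apply sum_congr rfl
      intro t _
      rw [hPB, Finset.prod_univ_sum]
    rw [← hswap]
    have h1 : ∀ t ∈ T, η * R ≤ ∏ i : Fin k, ∑ β ∈ Ioc 0 (H i), pr (G i t + β) := by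
      intro t ht
      have h2 : ∏ i : Fin k, (min η₀ 1 * ((H i : ℝ) / Real.log (H i))) ≤
          ∏ i : Fin k, ∑ β ∈ Ioc 0 (H i), pr (G i t + β) := by
        apply prod_le_prod
        · intro i _
          have := hlX i
          positivity
        · intro i _
          refine le_trans ?_ (hwin (H i) (hX i) (G i t) (hval i t ht).1 (hval i t ht).2)
          have := hlX i
          gcongr
          exact min_le_left _ _
      rw [prod_mul_distrib, prod_const, card_univ, Fintype.card_fin, hRprod] at h2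
      exact h2
    have h2 := sum_le_sum h1
    rw [sum_const, nsmul_eq_mul] at h2
    calc η * (R * M) = M * (η * R) := by ring
      _ ≤ _ := h2
  set S := PB.filter (fun b => κ₁ * (η / 2) * M / P ≤ primeS G b T ∧
      κ₁ * (η / 2) * primeS G b T ≤ M / P) with hSdef
  set S' := PB.filter (fun b => κ₁ * M / P ≤ N' b ∧ κ₁ * N' b ≤ M / P) with hS'def
  have hSS : S' ⊆ S := by
    intro b hb
    rw [hS'def, mem_filter] at hb
    rw [hSdef, mem_filter]
    obtain ⟨h1, h2, h3⟩ := hb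
    rw [hN'eq] at h2 h3
    refine ⟨h1, le_trans ?_ h2, le_trans ?_ h3⟩
    · apply div_le_div_of_nonneg_right _ hP0.le
      apply mul_le_mul_of_nonneg_right _ hM0.le
      nlinarith
    · apply mul_le_mul_of_nonneg_right _ (Nat.cast_nonneg _)
      nlinarith
  have hPBcard : (PB.card : ℝ) = HH := by
    rw [hPB, Fintype.card_piFinset, hHH]
    push_cast
    apply prod_congr rfl
    intro i _
    rw [Nat.card_Ioc]
    congr 1
  -- the bad b
  have hbad : ∑ b ∈ PB.filter (fun b => b ∉ S'), N' b ≤ η / 2 * (R * M) := by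
    have h1 : ∀ b ∈ PB.filter (fun b => b ∉ S'), N' b ≤ κ₁ * M / P + κ₁ * P / M * N' b ^ 2 := by
      intro b hb
      rw [mem_filter] at hb
      have hc1 : 0 ≤ κ₁ * M / P := by positivity
      have hc2 : 0 ≤ κ₁ * P / M * N' b ^ 2 := by positivity
      have h2 : ¬ (κ₁ * M / P ≤ N' b ∧ κ₁ * N' b ≤ M / P) := by
        intro h
        exact hb.2 (by rw [hS'def, mem_filter]; exact ⟨hb.1, h⟩)
      rw [not_and_or, not_le, not_le] at h2
      rcases h2 with h2 | h2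
      · linarith
      · have h3 : N' b ≤ κ₁ * P / M * N' b ^ 2 := by
          have h4 : 1 ≤ κ₁ * P / M * N' b := by
            rw [div_lt_iff₀ hP0] at h2
            rw [div_mul_eq_mul_div, le_div_iff₀ hM0]
            linarith
          have := hN'0 b
          calc N' b = 1 * N' b := (one_mul _).symm
            _ ≤ (κ₁ * P / M * N' b) * N' b := by gcongr
            _ = _ := by ring
        linarith
    refine (sum_le_sum h1).trans ?_
    rw [sum_add_distrib]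
    have h2 : ∑ _b ∈ PB.filter (fun b => b ∉ S'), κ₁ * M / P ≤ η / 4 * (R * M) := by
      rw [sum_const, nsmul_eq_mul]
      have h3 : ((PB.filter (fun b => b ∉ S')).card : ℝ) ≤ HH := by
        rw [← hPBcard]
        exact_mod_cast card_le_card (filter_subset _ _)
      calc ((PB.filter (fun b => b ∉ S')).card : ℝ) * (κ₁ * M / P) ≤ HH * ((η / 4) * M / P) := by
            gcongr
        _ = _ := by rw [hR]; ring
    have h3 : ∑ b ∈ PB.filter (fun b => b ∉ S'), κ₁ * P / M * N' b ^ 2 ≤ η / 4 * (R * M) := by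
      rw [← mul_sum]
      have h4 : ∑ b ∈ PB.filter (fun b => b ∉ S'), N' b ^ 2 ≤ C₂ * (M ^ 2 * (R / P)) := by
        refine le_trans ?_ hS
        exact sum_le_sum_of_subset_of_nonneg (filter_subset _ _) fun b _ _ => by positivity
      calc κ₁ * P / M * ∑ b ∈ PB.filter (fun b => b ∉ S'), N' b ^ 2 ≤
            κ₁ * P / M * (C₂ * (M ^ 2 * (R / P))) := by gcongr
        _ = (κ₁ * C₂) * (R * M) := by field_simp
        _ ≤ η / 4 * (R * M) := by gcongr
    linarith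
  have hgood : (η / 2) * (R * M) ≤ ∑ b ∈ PB.filter (fun b => b ∈ S'), N' b := by
    have h1 := sum_filter_add_sum_filter_not PB (fun b => b ∈ S') N'
    linarith
  have hgood2 : ∑ b ∈ PB.filter (fun b => b ∈ S'), N' b ≤ (S.card : ℝ) * (M / (κ₁ * P)) := by
    have h1 : ∀ b ∈ PB.filter (fun b => b ∈ S'), N' b ≤ M / (κ₁ * P) := by
      intro b hb
      have h2 := (mem_filter.1 ((mem_filter.1 hb).2)).2.2
      rw [le_div_iff₀ hP0] at h2
      rw [le_div_iff₀ (by positivity)]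
      linarith
    refine (sum_le_sum h1).trans ?_
    rw [sum_const, nsmul_eq_mul]
    have h2 : ((PB.filter (fun b => b ∈ S')).card : ℝ) ≤ S.card := by
      have : (PB.filter (fun b => b ∈ S')).card ≤ S.card := by
        apply card_le_card
        intro b hb
        exact hSS (mem_filter.1 hb).2
      exact_mod_cast this
    gcongr
  have h9 := hgood.trans hgood2
  have h10 : κ₁ * (η / 2) * HH ≤ S.card := by
    have e1 : (S.card : ℝ) * (M / (κ₁ * P)) = (S.card : ℝ) / κ₁ * (M / P) := by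
      field_simp
    have e2 : η / 2 * (R * M) = (η / 2 * HH) * (M / P) := by rw [hR]; ring
    rw [e1, e2] at h9
    have h11 := le_of_mul_le_mul_right h9 (by positivity)
    rw [le_div_iff₀ hκ₁0] at h11
    linarith
  exact h10

end Pool.Agent.W218.SI
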