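import Mathlib
import Pool.Agent.W218.SI.Main6
import Pool.Agent.W218.PG.Poly
import Pool.Agent.W218.SI.Dense

set_option autoImplicit false

/-! Linear forms `a_i n + b_i` with arbitrary leading coefficients. -/

namespace Pool.Agent.W218.SI

open Finset Pool.Agent.Erdos456 Pool.Agent.Erdos456.Mert Pool.Agent.W218.HF Pool.Agent.W218.LF
  Pool.Agent.W218.PF Pool.Agent.W218.PG

/-- the leading terms -/
def lead {k : ℕ} (a : Fin k → ℕ) (i : Fin k) (n : ℕ) : ℤ := (a i : ℤ) * n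

/-- moments of the differences in an interval -/
lemma mom_shift (m : ℕ) (hm : 1 ≤ m) : ∃ C : ℝ, 0 < C ∧ ∃ X0 : ℕ, ∀ x : ℕ, X0 ≤ x → ∀ y : ℕ,
    ∀ T ⊆ Ioc y (y + x), ∑ s ∈ T, ∑ t ∈ T, GG ((s : ℤ) - t).natAbs ^ m ≤ C * (x : ℝ) ^ 2 := by
  obtain ⟨C, hC, X0, h⟩ := mom_I m hm (Polynomial.X : Polynomial ℤ) (by simp)
  refine ⟨C, hC, X0, fun x hx y T hT => ?_⟩
  have h1 := h x hx (T.image (fun t => t - y)) (by
    intro t ht
    rw [mem_image] at ht
    obtain ⟨s, hs, rfl⟩ := ht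
    have := mem_Ioc.1 (hT hs)
    rw [mem_Icc]; omega)
  have hinj : Set.InjOn (fun t : ℕ => t - y) (T : Set ℕ) := by
    intro s hs t ht h
    have h2 := mem_Ioc.1 (hT (mem_coe.1 hs))
    have h3 := mem_Ioc.1 (hT (mem_coe.1 ht))
    simp only at h
    omega
  rw [sum_image hinj] at h1
  refine le_trans (le_of_eq ?_) h1
  apply sum_congr rfl
  intro s hs
  rw [sum_image hinj]
  apply sum_congr rfl
  intro t ht
  have h2 := mem_Ioc.1 (hT hs)
  have h3 := mem_Ioc.1 (hT ht)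
  simp only [Polynomial.eval_X]
  have e : ((s : ℤ) - t).natAbs = ((((s - y : ℕ) : ℤ)) - ((t - y : ℕ) : ℤ)).natAbs := by omega
  rw [e]

theorem lin6 : ∃ δ : ℝ, 0 < δ ∧ δ < 1 ∧ ∀ k : ℕ, 1 ≤ k → ∀ c ρ : ℝ, 0 < c → 0 < ρ →
    ∃ κ : ℝ, 0 < κ ∧ ∃ A₀ : ℕ, 4 ≤ A₀ ∧ ∀ a : Fin k → ℕ, (∀ i, A₀ ≤ a i) →
    (∀ i, c * a i ≤ Nat.totient (a i)) → ∀ y x : ℕ, c * ∏ i, Real.log (a i) ≤ x →
    (∀ i, ((y + x : ℕ) : ℝ) ≤ (a i : ℝ) ^ δ) → ∀ T ⊆ Ioc y (y + x), ρ * x ≤ (T.card : ℝ) →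
    κ * ∏ i, (a i : ℝ) ≤ ((((Fintype.piFinset (fun i : Fin k => Ioc 0 (a i))).filter (fun b =>
      κ * T.card / (∏ i, Real.log (a i)) ≤ primeS (lead a) b T ∧
      κ * primeS (lead a) b T ≤ T.card / (∏ i, Real.log (a i)))).card : ℕ) : ℝ) := by
  classical
  obtain ⟨δ, hδ, hδ1, hmain⟩ := main6
  refine ⟨δ, hδ, hδ1, fun k hk c ρ hc hρ => ?_⟩
  obtain ⟨C, hC, Xm, hXm⟩ := mom_shift (2 * k) (by omega)
  obtain ⟨κ, hκ, H₀, hH₀, hM⟩ := hmain k hk (1 / (c * ρ)) ((1 / c) ^ (2 * k) * C / ρ ^ 2)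
    (by positivity) (by positivity)
  set Y : ℕ := Xm + 1 with hY
  refine ⟨κ, hκ, max H₀ ⌈Real.exp ((Y : ℝ) / c)⌉₊, hH₀.trans (le_max_left _ _), ?_⟩
  intro a ha hφ y x hcx hxa T hT hTc
  have haH₀ : ∀ i, H₀ ≤ a i := fun i => (le_max_left _ _).trans (ha i)
  have h4 : (4 : ℝ) ≤ (max H₀ ⌈Real.exp ((Y : ℝ) / c)⌉₊ : ℕ) := by
    exact_mod_cast hH₀.trans (le_max_left _ _)
  have hl := log_prod_ge hk (by linarith) ha
  have hYl : (Y : ℝ) / c ≤ Real.log ((max H₀ ⌈Real.exp ((Y : ℝ) / c)⌉₊ : ℕ) : ℝ) := by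
    rw [Real.le_log_iff_exp_le (by linarith)]
    exact (Nat.le_ceil _).trans (by exact_mod_cast le_max_right _ _)
  have hYx : (Y : ℝ) ≤ x := by
    have h1 := hYl.trans hl
    rw [div_le_iff₀ hc] at h1
    linarith
  have hYx' : Y ≤ x := by exact_mod_cast hYx
  have hx0 : (0 : ℝ) < x := by
    have : (1 : ℝ) ≤ Y := by rw [hY]; push_cast; linarith [show (0 : ℝ) ≤ (Xm : ℝ) from Nat.cast_nonneg _]
    linarith
  have h2 : (x : ℝ) ≤ T.card / ρ := by rw [le_div_iff₀ hρ]; linarith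
  have ha4 : ∀ i, (4 : ℝ) ≤ a i := fun i => by exact_mod_cast hH₀.trans (haH₀ i)
  apply hM a haH₀ (lead a) T
  · intro i t ht
    have ht' := mem_Ioc.1 (hT ht)
    have ha0 : (0 : ℝ) < a i := by linarith [ha4 i]
    unfold lead
    constructor
    · have h3 : (1 : ℤ) ≤ t := by omega
      nlinarith [show (0 : ℤ) ≤ a i from Int.natCast_nonneg _]
    · push_cast
      have h3 : (t : ℝ) ≤ (a i : ℝ) ^ δ := by
        refine le_trans ?_ (hxa i)
        exact_mod_cast ht'.2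
      calc ((a i : ℝ) * t) ^ (1 - δ) ≤ ((a i : ℝ) * (a i : ℝ) ^ δ) ^ (1 - δ) := by
            apply Real.rpow_le_rpow (by positivity) _ (by linarith)
            gcongr
        _ = (a i : ℝ) ^ ((1 + δ) * (1 - δ)) := by
            rw [Real.rpow_mul ha0.le, Real.rpow_add ha0, Real.rpow_one]
        _ ≤ (a i : ℝ) ^ (1 : ℝ) := by
            apply Real.rpow_le_rpow_of_exponent_le (by linarith [ha4 i])
            nlinarith
        _ = a i := Real.rpow_one _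
  · intro t₁ _ t₂ _ hne i h
    unfold lead at h
    apply hne
    have ha0 : (a i : ℤ) ≠ 0 := by
      have := hH₀.trans (haH₀ i)
      omega
    exact_mod_cast mul_left_cancel₀ ha0 h
  · intro i
    have h3 := hXm x (by omega) y T hT
    have hga : GG (a i) ≤ 1 / c := by
      unfold GG
      have hφ0 : (0 : ℝ) < Nat.totient (a i) := by
        have : 0 < a i := by have := hH₀.trans (haH₀ i); omega
        exact_mod_cast Nat.totient_pos.2 this
      rw [div_le_div_iff₀ hφ0 hc]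
      linarith [hφ i]
    have h5 : ∀ s ∈ T, ∀ t ∈ T, GG (lead a i s - lead a i t).natAbs ^ (2 * k) ≤
        (1 / c) ^ (2 * k) * GG ((s : ℤ) - t).natAbs ^ (2 * k) := by
      intro s _ t _
      have e : (lead a i s - lead a i t).natAbs = a i * ((s : ℤ) - t).natAbs := by
        unfold lead
        rw [← mul_sub, Int.natAbs_mul, Int.natAbs_natCast]
      rw [e, ← mul_pow]
      apply pow_le_pow_left₀ (GG_nonneg _)
      calc GG (a i * ((s : ℤ) - t).natAbs) ≤ GG (a i) * GG ((s : ℤ) - t).natAbs := GG_mul_le _ _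
        _ ≤ _ := mul_le_mul_of_nonneg_right hga (GG_nonneg _)
    calc _ ≤ ∑ s ∈ T, ∑ t ∈ T, (1 / c) ^ (2 * k) * GG ((s : ℤ) - t).natAbs ^ (2 * k) :=
          sum_le_sum fun s hs => sum_le_sum fun t ht => h5 s hs t ht
      _ = (1 / c) ^ (2 * k) * ∑ s ∈ T, ∑ t ∈ T, GG ((s : ℤ) - t).natAbs ^ (2 * k) := by
          rw [mul_sum]
          apply sum_congr rfl
          intro s _
          rw [mul_sum]
      _ ≤ (1 / c) ^ (2 * k) * (C * (T.card / ρ) ^ 2) := by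
          apply mul_le_mul_of_nonneg_left _ (by positivity)
          refine h3.trans ?_
          gcongr
      _ = _ := by field_simp
  · calc ∏ i, Real.log (a i) = 1 / c * (c * ∏ i, Real.log (a i)) := by field_simp
      _ ≤ 1 / c * (T.card / ρ) := by
          have := hcx.trans h2
          gcongr
      _ = _ := by field_simp

end Pool.Agent.W218.SI
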