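import Mathlib
import Pool.Agent.W218.SI.Lin6

set_option autoImplicit false

/-! Every modulus: tools. -/

namespace Pool.Agent.W218.SI

open Finset Pool.Agent.Erdos456 Pool.Agent.Erdos456.Mert Pool.Agent.W218.HF Pool.Agent.W218.LF
  Pool.Agent.W218.PF Pool.Agent.W218.PG

/-- the product of the primes `p ≤ z` dividing `q` -/
noncomputable def sm (z q : ℕ) : ℕ := ∏ p ∈ q.primeFactors.filter (fun p => p ≤ z), p

lemma sm_dvd (z q : ℕ) : sm z q ∣ q := by
  unfold sm
  exact (Finset.prod_dvd_prod_of_subset _ _ _ (filter_subset _ _)).trans (Nat.prod_primeFactors_dvd q)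

lemma sm_pos (z q : ℕ) : 0 < sm z q := by
  unfold sm
  apply prod_pos
  intro p hp
  exact (Nat.prime_of_mem_primeFactors (mem_filter.1 hp).1).pos

lemma sm_le (z q : ℕ) : sm z q ≤ 4 ^ z := by
  refine le_trans ?_ (primorial_le_four_pow z)
  unfold sm primorial
  apply Finset.prod_le_prod_of_subset_of_one_le'
  · intro p hp
    rw [mem_filter] at hp ⊢
    exact ⟨mem_range.2 (by omega), Nat.prime_of_mem_primeFactors hp.1⟩
  · intro p hp _
    exact (mem_filter.1 hp).2.one_le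

lemma sm_factors (z q : ℕ) : (sm z q).primeFactors = q.primeFactors.filter (fun p => p ≤ z) := by
  unfold sm
  exact Nat.primeFactors_prod fun p hp => Nat.prime_of_mem_primeFactors (mem_filter.1 hp).1

lemma card_factors {q : ℕ} (hq : 0 < q) : (q.primeFactors.card : ℝ) ≤ 2 * Real.log q := by
  have h1 : 2 ^ q.primeFactors.card ≤ q := by
    calc 2 ^ q.primeFactors.card = ∏ _p ∈ q.primeFactors, 2 := by rw [prod_const]
      _ ≤ ∏ p ∈ q.primeFactors, p := prod_le_prod' fun p hp =>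
          (Nat.prime_of_mem_primeFactors hp).two_le
      _ ≤ q := Nat.le_of_dvd hq (Nat.prod_primeFactors_dvd q)
  have h2 : Real.log ((2 : ℝ) ^ q.primeFactors.card) ≤ Real.log q := by
    apply Real.log_le_log (by positivity)
    exact_mod_cast h1
  rw [Real.log_pow] at h2
  have h3 := Real.log_two_gt_d9
  have h4 : (0 : ℝ) ≤ q.primeFactors.card := Nat.cast_nonneg _
  nlinarith

lemma GG_sm {z q : ℕ} (hz : 1 ≤ z) (hq : 0 < q) :
    GG q ≤ Real.exp (2 * Real.log q / z) * GG (sm z q) := by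
  have hz0 : (0 : ℝ) < z := by exact_mod_cast hz
  rw [GG_eq_prod hq, GG_eq_prod (sm_pos z q), sm_factors,
    ← prod_filter_mul_prod_filter_not q.primeFactors (fun p => p ≤ z), mul_comm]
  apply mul_le_mul_of_nonneg_right
  · have h1 : ∀ p ∈ q.primeFactors.filter (fun p => ¬ p ≤ z), (1 - (p : ℝ)⁻¹)⁻¹ ≤
        Real.exp (1 / z) := by
      intro p hp
      rw [mem_filter] at hp
      have hp1 : (z : ℝ) + 1 ≤ p := by exact_mod_cast (by omega : z + 1 ≤ p)
      have hp0 : (0 : ℝ) < p := by linarith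
      have e : (1 - (p : ℝ)⁻¹)⁻¹ = 1 + 1 / ((p : ℝ) - 1) := by
        have : (p : ℝ) - 1 ≠ 0 := by linarith
        field_simp
        ring
      rw [e]
      calc 1 + 1 / ((p : ℝ) - 1) ≤ 1 + 1 / (z : ℝ) := by
            gcongr
            linarith
        _ ≤ Real.exp (1 / z) := by
            have := Real.add_one_le_exp (1 / (z : ℝ))
            linarith
    calc ∏ p ∈ q.primeFactors.filter (fun p => ¬ p ≤ z), (1 - (p : ℝ)⁻¹)⁻¹ ≤
        ∏ _p ∈ q.primeFactors.filter (fun p => ¬ p ≤ z), Real.exp (1 / z) := by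
          apply prod_le_prod
          · intro p hp
            have := (Nat.prime_of_mem_primeFactors (mem_filter.1 hp).1).one_lt
            have h2 : (1 : ℝ) < p := by exact_mod_cast this
            have h3 : (p : ℝ)⁻¹ < 1 := inv_lt_one_of_one_lt₀ h2
            exact inv_nonneg.2 (by linarith)
          · exact h1
      _ = Real.exp ((q.primeFactors.filter (fun p => ¬ p ≤ z)).card * (1 / z)) := by
          rw [prod_const, ← Real.exp_nat_mul]
      _ ≤ Real.exp (2 * Real.log q / z) := by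
          apply Real.exp_le_exp.2
          have h2 : ((q.primeFactors.filter (fun p => ¬ p ≤ z)).card : ℝ) ≤ 2 * Real.log q :=
            le_trans (by exact_mod_cast card_filter_le _ _) (card_factors hq)
          calc _ ≤ 2 * Real.log q * (1 / z) := by gcongr
            _ = _ := by ring
  · apply prod_nonneg
    intro p hp
    have := (Nat.prime_of_mem_primeFactors (mem_filter.1 hp).1).one_lt
    have h2 : (1 : ℝ) < p := by exact_mod_cast this
    have h3 : (p : ℝ)⁻¹ < 1 := inv_lt_one_of_one_lt₀ h2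
    exact inv_nonneg.2 (by linarith)

lemma GG_absorb {m n : ℕ} (hn : 0 < n) (hm : m ∣ n) : GG (m * n) = GG n := by
  have hm0 : 0 < m := Nat.pos_of_dvd_of_pos hm hn
  rw [GG_eq_prod (Nat.mul_pos hm0 hn), GG_eq_prod hn, Nat.primeFactors_mul hm0.ne' hn.ne',
    union_eq_right.2 (Nat.primeFactors_mono hm hn.ne')]

/-- pairs, uniformly in the modulus -/
theorem pairQ : ∃ C : ℝ, 0 < C ∧ ∀ (q m B H n₁ n₂ : ℕ), 0 < q → m ∣ q → 4 ≤ H → m ^ 2 ≤ H →
    1 ≤ n₁ → 1 ≤ n₂ → n₁ ≠ n₂ →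
    ∑ β ∈ Ioc 0 H, pr (((q * n₁ + B : ℕ) : ℤ) + β) * pr (((q * n₂ + B : ℕ) : ℤ) + β) ≤
      C * (GG q ^ 2 / GG m) * GG ((n₁ : ℤ) - n₂).natAbs ^ 2 * (H / Real.log H ^ 2) := by
  classical
  obtain ⟨C₃, hC₃, hsv⟩ := sieve_two'
  refine ⟨8 * C₃, by positivity, ?_⟩
  intro q m B H n₁ n₂ hq hmq hH hmH hn₁ hn₂ hne
  have hm0 : 0 < m := Nat.pos_of_dvd_of_pos hmq hq
  have hmle : m ≤ q := Nat.le_of_dvd hq hmq
  set N : ℕ := H / m + 1 with hN
  have hmH1 : m ≤ H := by nlinarith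
  have hHm : 1 ≤ H / m := (Nat.one_le_div_iff hm0).2 hmH1
  have hN2 : 2 ≤ N := by omega
  rw [sum_pr_pr]
  set Δ : ℕ := ((n₁ : ℤ) - n₂).natAbs with hΔ
  have hΔ0 : 0 < Δ := by rw [hΔ, Int.natAbs_pos]; omega
  set R := (Ico (B + 1) (B + 1 + m)).filter (fun r => m.Coprime r) with hR
  set J : ℕ → Finset ℕ := fun r => (Icc 1 N).filter (fun j =>
    (m * j + (q * n₁ + r - m)).Prime ∧ (m * j + (q * n₂ + r - m)).Prime) with hJ
  have hsub : (Ioc 0 H).filter (fun β : ℕ => (((q * n₁ + B : ℕ) : ℤ) + ((β : ℕ) : ℤ)).toNat.Prime ∧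
      (((q * n₂ + B : ℕ) : ℤ) + ((β : ℕ) : ℤ)).toNat.Prime) ⊆
      R.biUnion (fun r => (J r).image (fun j => r + m * (j - 1) - B)) := by
    intro β hβ
    rw [mem_filter, mem_Ioc] at hβ
    obtain ⟨⟨hβ1, hβ2⟩, hp₁, hp₂⟩ := hβ
    have t1 : (((q * n₁ + B : ℕ) : ℤ) + ((β : ℕ) : ℤ)).toNat = q * n₁ + B + β := by omega
    have t2 : (((q * n₂ + B : ℕ) : ℤ) + ((β : ℕ) : ℤ)).toNat = q * n₂ + B + β := by omega
    rw [t1] at hp₁
    rw [t2] at hp₂
    set s : ℕ := β - 1 with hs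
    set r : ℕ := B + 1 + s % m with hr
    set j : ℕ := s / m + 1 with hj
    have hsm : s % m < m := Nat.mod_lt _ hm0
    have hdm := Nat.mod_add_div s m
    have hqn₁ : q ≤ q * n₁ := Nat.le_mul_of_pos_right q hn₁
    have hqn₂ : q ≤ q * n₂ := Nat.le_mul_of_pos_right q hn₂
    have hval : r + m * (j - 1) = B + β := by
      rw [hr, hj, Nat.add_sub_cancel]
      omega
    have e1 : m * j + (q * n₁ + r - m) = q * n₁ + B + β := by
      have : m * j = m * (j - 1) + m := by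
        rw [hj, Nat.add_sub_cancel]; ring
      omega
    have e2 : m * j + (q * n₂ + r - m) = q * n₂ + B + β := by
      have : m * j = m * (j - 1) + m := by
        rw [hj, Nat.add_sub_cancel]; ring
      omega
    have hcop : m.Coprime r := by
      rw [Nat.coprime_iff_gcd_eq_one]
      by_contra hg
      obtain ⟨ℓ, hℓ, hℓg⟩ := Nat.exists_prime_and_dvd hg
      have hℓm : ℓ ∣ m := hℓg.trans (Nat.gcd_dvd_left _ _)
      have hℓr : ℓ ∣ r := hℓg.trans (Nat.gcd_dvd_right _ _)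
      have hℓb : ℓ ∣ B + β := by
        rw [← hval]; exact dvd_add hℓr (Dvd.dvd.mul_right hℓm _)
      have hℓv : ℓ ∣ q * n₁ + B + β := by
        rw [add_assoc]
        exact dvd_add (Dvd.dvd.mul_right (hℓm.trans hmq) _) hℓb
      have h5 := (Nat.prime_dvd_prime_iff_eq hℓ hp₁).1 hℓv
      have h6 : ℓ ≤ m := Nat.le_of_dvd hm0 hℓm
      omega
    rw [mem_biUnion]
    refine ⟨r, ?_, ?_⟩
    · rw [hR, mem_filter, mem_Ico]
      exact ⟨⟨by omega, by omega⟩, hcop⟩
    · rw [mem_image]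
      refine ⟨j, ?_, by rw [hval]; omega⟩
      rw [hJ, mem_filter, mem_Icc]
      refine ⟨⟨Nat.le_add_left 1 _, ?_⟩, by rw [e1]; exact hp₁, by rw [e2]; exact hp₂⟩
      have : s / m ≤ H / m := Nat.div_le_div_right (by omega)
      rw [hj, hN]
      exact Nat.add_le_add_right this 1
  have hJr : ∀ r ∈ R, ((J r).card : ℝ) ≤ C₃ * (GG q * GG Δ) ^ 2 * (2 * (H / m)) /
      (Real.log H / 2) ^ 2 := by
    intro r hr
    rw [hR, mem_filter, mem_Ico] at hr
    have hqn₁ : q ≤ q * n₁ := Nat.le_mul_of_pos_right q hn₁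
    have hqn₂ : q ≤ q * n₂ := Nat.le_mul_of_pos_right q hn₂
    have hc : ∀ n : ℕ, 1 ≤ n → m.Coprime (q * n + r - m) := by
      intro n hn
      have hqn : q ≤ q * n := Nat.le_mul_of_pos_right q hn
      rw [Nat.coprime_iff_gcd_eq_one]
      by_contra hg
      obtain ⟨ℓ, hℓ, hℓg⟩ := Nat.exists_prime_and_dvd hg
      have hℓm : ℓ ∣ m := hℓg.trans (Nat.gcd_dvd_left _ _)
      have hℓr : ℓ ∣ q * n + r - m := hℓg.trans (Nat.gcd_dvd_right _ _)
      have h7 : ℓ ∣ q * n + r := by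
        have := dvd_add hℓr hℓm
        rwa [Nat.sub_add_cancel (by omega)] at this
      have h8 : ℓ ∣ r := (Nat.dvd_add_right (Dvd.dvd.mul_right (hℓm.trans hmq) n)).1 h7
      have h9 : ℓ ∣ Nat.gcd m r := Nat.dvd_gcd hℓm h8
      rw [hr.2] at h9
      exact hℓ.one_lt.ne' (Nat.dvd_one.1 h9)
    have hdiff : ((m * (q * n₂ + r - m) : ℕ) : ℤ) - ((m * (q * n₁ + r - m) : ℕ) : ℤ) =
        (m : ℤ) * (q * ((n₂ : ℤ) - n₁)) := by
      have a1 : ((q * n₂ + r - m : ℕ) : ℤ) = q * n₂ + r - m := by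
        rw [Nat.cast_sub (by omega)]; push_cast; ring
      have a2 : ((q * n₁ + r - m : ℕ) : ℤ) = q * n₁ + r - m := by
        rw [Nat.cast_sub (by omega)]; push_cast; ring
      rw [Nat.cast_mul, Nat.cast_mul, a1, a2]
      ring
    have hne' : m * (q * n₂ + r - m) ≠ m * (q * n₁ + r - m) := by
      intro h
      rw [h, sub_self] at hdiff
      have h1 : (m : ℤ) * (q * ((n₂ : ℤ) - n₁)) ≠ 0 := by
        apply mul_ne_zero (by exact_mod_cast hm0.ne')
        apply mul_ne_zero (by exact_mod_cast hq.ne')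
        omega
      exact h1 hdiff.symm
    have h3 := hsv m (q * n₁ + r - m) m (q * n₂ + r - m) N hm0 hm0 (hc n₁ hn₁) (hc n₂ hn₂) hne' hN2
    have hG : GG (m * m * (((m * (q * n₂ + r - m) : ℕ) : ℤ) - ((m * (q * n₁ + r - m) : ℕ) : ℤ)).natAbs) ≤
        GG q * GG Δ := by
      rw [hdiff, Int.natAbs_mul, Int.natAbs_mul, Int.natAbs_natCast, Int.natAbs_natCast]
      have e : ((n₂ : ℤ) - n₁).natAbs = Δ := by omega
      rw [e]
      have hqΔ : 0 < q * Δ := Nat.mul_pos hq hΔ0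
      have hmd : m ∣ q * Δ := Dvd.dvd.mul_right hmq _
      have e2 : m * m * (m * (q * Δ)) = m * (m * (m * (q * Δ))) := by ring
      rw [e2, GG_absorb (Nat.mul_pos hm0 (Nat.mul_pos hm0 hqΔ)) (Dvd.intro _ rfl),
        GG_absorb (Nat.mul_pos hm0 hqΔ) (Dvd.intro _ rfl), GG_absorb hqΔ hmd]
      exact GG_mul_le _ _
    have hH0 : (0 : ℝ) < H := by exact_mod_cast (by omega : 0 < H)
    have hm0' : (0 : ℝ) < m := by exact_mod_cast hm0
    have hlH : 0 < Real.log H := Real.log_pos (by exact_mod_cast (by omega : 1 < H))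
    have hNlow : (H : ℝ) / m ≤ N := by
      rw [hN]
      push_cast
      exact (Nat.lt_floor_add_one ((H : ℝ) / m)).le.trans (by rw [Nat.floor_div_eq_div])
    have hNup : (N : ℝ) ≤ 2 * (H / m) := by
      rw [hN]
      push_cast
      have h4 : ((H / m : ℕ) : ℝ) ≤ (H : ℝ) / m := Nat.cast_div_le
      have h5 : (1 : ℝ) ≤ (H : ℝ) / m := by
        rw [le_div_iff₀ hm0', one_mul]; exact_mod_cast hmH1
      linarith
    have hlN : Real.log H / 2 ≤ Real.log N := by
      have h4 : (H : ℝ) ≤ (N : ℝ) ^ 2 := by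
        have h5 : ((m : ℝ)) ^ 2 ≤ H := by exact_mod_cast hmH
        calc (H : ℝ) = H ^ 2 / H := by field_simp
          _ ≤ H ^ 2 / (m : ℝ) ^ 2 := by gcongr
          _ = ((H : ℝ) / m) ^ 2 := by rw [div_pow]
          _ ≤ _ := by gcongr
      have h6 := Real.log_le_log hH0 h4
      rw [Real.log_pow] at h6
      push_cast at h6
      linarith
    refine h3.trans ?_
    have hGq : 0 ≤ GG (m * m * (((m * (q * n₂ + r - m) : ℕ) : ℤ) - ((m * (q * n₁ + r - m) : ℕ) : ℤ)).natAbs) :=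
      GG_nonneg _
    gcongr
  have hRc : R.card = Nat.totient m := by
    rw [hR]; exact Nat.filter_coprime_Ico_eq_totient m (B + 1)
  have hH0 : (0 : ℝ) < H := by exact_mod_cast (by omega : 0 < H)
  have hm0' : (0 : ℝ) < m := by exact_mod_cast hm0
  have hφ0 : (0 : ℝ) < Nat.totient m := by exact_mod_cast Nat.totient_pos.2 hm0
  have hlH : 0 < Real.log H := Real.log_pos (by exact_mod_cast (by omega : 1 < H))
  calc _ ≤ ((R.biUnion (fun r => (J r).image (fun j => r + m * (j - 1) - B))).card : ℝ) := by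
        exact_mod_cast card_le_card hsub
    _ ≤ ∑ r ∈ R, (((J r).image (fun j => r + m * (j - 1) - B)).card : ℝ) := by
        exact_mod_cast card_biUnion_le
    _ ≤ ∑ r ∈ R, ((J r).card : ℝ) := by
        apply sum_le_sum
        intro r _
        exact_mod_cast card_image_le
    _ ≤ ∑ _r ∈ R, C₃ * (GG q * GG Δ) ^ 2 * (2 * (H / m)) / (Real.log H / 2) ^ 2 :=
        sum_le_sum hJr
    _ = _ := by
        rw [sum_const, nsmul_eq_mul, hRc]
        have e : GG m = m / Nat.totient m := rfl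
        rw [e]
        field_simp
        ring

lemma coprime_count {m B H : ℕ} (hm : 0 < m) (hmH : m ≤ H) :
    (((Ioc B (B + H)).filter (fun b => m.Coprime b)).card : ℝ) ≤ 2 * H / GG m := by
  have h1 := Nat.Ico_filter_coprime_le (a := m) (B + 1) H hm.ne'
  have e : (Ioc B (B + H)) = Ico (B + 1) (B + 1 + H) := by
    ext b; simp only [mem_Ioc, mem_Ico]; omega
  rw [e]
  have hm0 : (0 : ℝ) < m := by exact_mod_cast hm
  have hφ0 : (0 : ℝ) < Nat.totient m := by exact_mod_cast Nat.totient_pos.2 hm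
  have h2 : ((H / m : ℕ) : ℝ) ≤ (H : ℝ) / m := Nat.cast_div_le
  have h3 : (1 : ℝ) ≤ (H : ℝ) / m := by
    rw [le_div_iff₀ hm0, one_mul]; exact_mod_cast hmH
  calc _ ≤ ((Nat.totient m * (H / m + 1) : ℕ) : ℝ) := by exact_mod_cast h1
    _ = (Nat.totient m : ℝ) * (((H / m : ℕ) : ℝ) + 1) := by push_cast; ring
    _ ≤ (Nat.totient m : ℝ) * ((H : ℝ) / m + H / m) := by gcongr
    _ = _ := by
        have e2 : GG m = m / Nat.totient m := rfl
        rw [e2]
        field_simp
        ring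

end Pool.Agent.W218.SI
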