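import Mathlib
import Pool.Agent.W218.SI.Lp

set_option autoImplicit false

/-! Primes `q n + b` for every modulus `q`, `b` in a short interval, `n` in a dense set. -/

namespace Pool.Agent.W218.SI

open Finset Pool.Agent.Erdos456 Pool.Agent.Erdos456.Mert Pool.Agent.W218.HF Pool.Agent.W218.LF
  Pool.Agent.W218.PF Pool.Agent.W218.PG

/-- the weight -/
noncomputable def Nq (q B : ℕ) (T : Finset ℕ) (β : ℕ) : ℝ :=
  ∑ n ∈ T, pr (((q * n + B : ℕ) : ℤ) + β)

lemma Nq_nonneg (q B : ℕ) (T : Finset ℕ) (β : ℕ) : 0 ≤ Nq q B T β :=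
  sum_nonneg fun _ _ => pr_nonneg _

lemma Nq_pos_coprime {q m B β : ℕ} (hq : 0 < q) (hm : m ∣ q) {T : Finset ℕ} (hT : ∀ n ∈ T, 1 ≤ n)
    (hβ : 1 ≤ β) (h : Nq q B T β ≠ 0) : m.Coprime (B + β) := by
  unfold Nq at h
  obtain ⟨n, hn, hn0⟩ := exists_ne_zero_of_sum_ne_zero h
  have hp : (((q * n + B : ℕ) : ℤ) + (β : ℤ)).toNat.Prime := by
    by_contra hc
    apply hn0
    unfold pr
    rw [if_neg hc]
  have t1 : (((q * n + B : ℕ) : ℤ) + ((β : ℕ) : ℤ)).toNat = q * n + B + β := by omega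
  rw [t1] at hp
  have hm0 : 0 < m := Nat.pos_of_dvd_of_pos hm hq
  have hmle : m ≤ q := Nat.le_of_dvd hq hm
  have hqn : q ≤ q * n := Nat.le_mul_of_pos_right q (hT n hn)
  rw [Nat.coprime_iff_gcd_eq_one]
  by_contra hg
  obtain ⟨ℓ, hℓ, hℓg⟩ := Nat.exists_prime_and_dvd hg
  have hℓm : ℓ ∣ m := hℓg.trans (Nat.gcd_dvd_left _ _)
  have hℓr : ℓ ∣ B + β := hℓg.trans (Nat.gcd_dvd_right _ _)
  have hℓv : ℓ ∣ q * n + B + β := by
    rw [add_assoc]
    exact dvd_add (Dvd.dvd.mul_right (hℓm.trans hm) _) hℓr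
  have h5 := (Nat.prime_dvd_prime_iff_eq hℓ hp).1 hℓv
  have h6 : ℓ ≤ m := Nat.le_of_dvd hm0 hℓm
  omega

/-- `q / φ(q)` is at most of order `sqrt (log q)` -/
lemma GG_sqrt : ∃ C : ℝ, 0 < C ∧ ∀ q : ℕ, 3 ≤ q → GG q ^ 2 ≤ C * Real.log q := by
  obtain ⟨C₁, hC₁, h⟩ := prod_mertens_gen 8
  refine ⟨Real.exp 6 ^ 2 * (C₁ * 2), by positivity, ?_⟩
  intro q hq
  have hqr : (3 : ℝ) ≤ q := by exact_mod_cast hq
  have hl1 : 1 ≤ Real.log q := by
    rw [Real.le_log_iff_exp_le (by linarith)]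
    have := Real.exp_one_lt_d9
    linarith
  set X : ℕ := ⌈Real.log q⌉₊ with hX
  have hX1 : 1 ≤ X := Nat.one_le_ceil_iff.2 (by linarith)
  have hXl : Real.log q ≤ X := Nat.le_ceil _
  have hXu : (X : ℝ) ≤ 2 * Real.log q := by
    have := Nat.ceil_lt_add_one (show 0 ≤ Real.log q by linarith)
    rw [← hX] at this
    linarith
  have h1 : (q : ℝ) ≤ Real.exp (4 * X) := by
    have h3 : (q : ℝ) ≤ Real.exp X := by
      have := Real.exp_le_exp.2 hXl
      rwa [Real.exp_log (by linarith)] at this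
    have h4 : Real.exp (X : ℝ) ≤ Real.exp (4 * X) := Real.exp_le_exp.2 (by
      have : (0 : ℝ) ≤ X := Nat.cast_nonneg X
      linarith)
    linarith
  have h5 := GG_le_small (by omega : 0 < q) hX1 h1
  have hfac : ∀ p : ℕ, p.Prime → 0 ≤ (1 - (p : ℝ)⁻¹)⁻¹ ∧
      ((1 - (p : ℝ)⁻¹)⁻¹) ^ 2 ≤ 1 + ((8 : ℕ) : ℝ) / (p : ℝ) := by
    intro p hp
    have h2 : (2 : ℝ) ≤ p := by exact_mod_cast hp.two_le
    have h3 : (p : ℝ)⁻¹ < 1 := inv_lt_one_of_one_lt₀ (by linarith)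
    refine ⟨inv_nonneg.2 (by linarith), ?_⟩
    have e : (1 - (p : ℝ)⁻¹)⁻¹ = (p : ℝ) / (p - 1) := by
      have : (p : ℝ) - 1 ≠ 0 := by linarith
      field_simp
    rw [e, div_pow, div_le_iff₀ (by
      have : (0 : ℝ) < (p : ℝ) - 1 := by linarith
      positivity)]
    have e2 : (1 + ((8 : ℕ) : ℝ) / (p : ℝ)) * ((p : ℝ) - 1) ^ 2 =
        (((p : ℝ) + 8) * ((p : ℝ) - 1) ^ 2) / p := by
      push_cast; field_simp
    rw [e2, le_div_iff₀ (by linarith)]
    nlinarith [mul_nonneg (by linarith : (0 : ℝ) ≤ (p : ℝ)) (by linarith : (0 : ℝ) ≤ (p : ℝ) - 2)]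
  have h6 : (∏ p ∈ (PP X).filter (fun p => p ∣ q), (1 - (p : ℝ)⁻¹)⁻¹) ^ 2 ≤
      ∏ p ∈ PP X, (1 + ((8 : ℕ) : ℝ) / (p : ℝ)) := by
    rw [← prod_pow]
    calc ∏ p ∈ (PP X).filter (fun p => p ∣ q), ((1 - (p : ℝ)⁻¹)⁻¹) ^ 2
        ≤ ∏ p ∈ (PP X).filter (fun p => p ∣ q), (1 + ((8 : ℕ) : ℝ) / (p : ℝ)) := by
          apply prod_le_prod
          · intro p _; positivity
          · intro p hp
            exact (hfac p (mem_PP (mem_filter.1 hp).1).2.2).2
      _ ≤ _ := by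
          apply prod_le_prod_of_subset_of_one_le (filter_subset _ _)
          · intro p _; positivity
          · intro p _ _
            have : (0 : ℝ) ≤ ((8 : ℕ) : ℝ) / (p : ℝ) := by positivity
            linarith
  have h7 : 0 ≤ ∏ p ∈ (PP X).filter (fun p => p ∣ q), (1 - (p : ℝ)⁻¹)⁻¹ :=
    prod_nonneg fun p hp => (hfac p (mem_PP (mem_filter.1 hp).1).2.2).1
  calc GG q ^ 2 ≤ (Real.exp 6 * ∏ p ∈ (PP X).filter (fun p => p ∣ q), (1 - (p : ℝ)⁻¹)⁻¹) ^ 2 := by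
        have := GG_nonneg q
        gcongr
    _ = Real.exp 6 ^ 2 * (∏ p ∈ (PP X).filter (fun p => p ∣ q), (1 - (p : ℝ)⁻¹)⁻¹) ^ 2 := by ring
    _ ≤ Real.exp 6 ^ 2 * (C₁ * X) := by
        gcongr
        exact h6.trans (h X hX1)
    _ ≤ Real.exp 6 ^ 2 * (C₁ * (2 * Real.log q)) := by gcongr
    _ = _ := by ring

theorem lpMain : ∃ δ : ℝ, 0 < δ ∧ δ < 1 ∧ ∀ c ρ : ℝ, 0 < c → 0 < ρ →
    ∃ κ : ℝ, 0 < κ ∧ ∃ q₀ : ℕ, 3 ≤ q₀ ∧ ∀ q : ℕ, q₀ ≤ q → ∀ B H : ℕ, (q : ℝ) ^ (1 - δ) ≤ H →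
    B + H ≤ q → ∀ y x : ℕ, c * Real.log q / GG q ≤ x → ((y + x : ℕ) : ℝ) ≤ (q : ℝ) ^ δ →
    ∀ T ⊆ Ioc y (y + x), ρ * x ≤ (T.card : ℝ) →
    κ * (H / GG q) ≤ (((Ioc 0 H).filter (fun β =>
      κ * (GG q * T.card / Real.log q) ≤ Nq q B T β ∧
      κ * Nq q B T β ≤ GG q * T.card / Real.log q)).card : ℝ) := by
  classical
  obtain ⟨δ₀, η, hδ₀, hδ₀1, hη, H₀, hH₀, hwin⟩ := window6
  obtain ⟨C₄, hC₄, hpair⟩ := pairQ
  obtain ⟨C₅, hC₅, X₅, hmom⟩ := mom_shift 2 (by norm_num)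
  set δ : ℝ := min (δ₀ / 4) (1 / 4) with hδ
  have hδ0 : 0 < δ := by positivity
  have hδ1 : δ ≤ δ₀ / 4 := min_le_left _ _
  have hδ2 : δ ≤ 1 / 4 := min_le_right _ _
  refine ⟨δ, hδ0, by linarith, fun c ρ hc hρ => ?_⟩
  set K₁ : ℝ := Real.exp 32 with hK₁
  have hK₁0 : 0 < K₁ := Real.exp_pos _
  set C₂ : ℝ := 40 / (c * ρ) + 4 * C₄ * K₁ * C₅ / ρ ^ 2 with hC₂
  have hC₂0 : 0 < C₂ := by positivity
  set κ₁ : ℝ := min (η / (8 * K₁)) (η / (4 * C₂)) with hκ₁
  have hκ₁0 : 0 < κ₁ := by positivity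
  have hκ₁a : κ₁ * (8 * K₁) ≤ η := by
    have : κ₁ ≤ η / (8 * K₁) := min_le_left _ _
    rwa [le_div_iff₀ (by positivity)] at this
  have hκ₁b : κ₁ * (4 * C₂) ≤ η := by
    have : κ₁ ≤ η / (4 * C₂) := min_le_right _ _
    rwa [le_div_iff₀ (by positivity)] at this
  obtain ⟨C₆, hC₆, hGs⟩ := GG_sqrt
  -- eventual conditions
  have ev1 : ∀ᶠ q : ℕ in Filter.atTop, (2 : ℝ) ≤ (q : ℝ) ^ (δ₀ / 2) :=
    ((tendsto_rpow_atTop (by positivity : 0 < δ₀ / 2)).comp tendsto_natCast_atTop_atTop).eventually_ge_atTop 2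
  have ev2 : ∀ᶠ q : ℕ in Filter.atTop, (H₀ : ℝ) ≤ (q : ℝ) ^ (1 - δ) :=
    ((tendsto_rpow_atTop (by linarith : 0 < 1 - δ)).comp tendsto_natCast_atTop_atTop).eventually_ge_atTop _
  have ev3 : ∀ᶠ q : ℕ in Filter.atTop, max 8 (C₆ * ((X₅ + 1) / c) ^ 2) ≤ Real.log q :=
    (Real.tendsto_log_atTop.comp tendsto_natCast_atTop_atTop).eventually_ge_atTop _
  obtain ⟨q₁, hq₁⟩ := Filter.eventually_atTop.1 ((ev1.and ev2).and ev3)
  refine ⟨min κ₁ (κ₁ * (η / 2)), by positivity, max q₁ 3, le_max_right _ _, ?_⟩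
  intro q hq B H hH hBH y x hx hxq T hT hTc
  obtain ⟨⟨e1, e2⟩, e3⟩ := hq₁ q ((le_max_left _ _).trans hq)
  have hq3 : 3 ≤ q := (le_max_right _ _).trans hq
  have hq3r : (3 : ℝ) ≤ q := by exact_mod_cast hq3
  have hq0 : (0 : ℝ) < q := by linarith
  have hq1 : (1 : ℝ) ≤ q := by linarith
  have hqpos : 0 < q := by omega
  have hL8 : 8 ≤ Real.log q := (le_max_left _ _).trans e3
  set L : ℝ := Real.log q with hL
  have hL0 : 0 < L := by linarith
  set g : ℝ := GG q with hg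
  have hg1 : 1 ≤ g := one_le_GG hqpos
  have hg0 : 0 < g := by linarith
  have hHH₀ : H₀ ≤ H := by exact_mod_cast e2.trans hH
  have hH4 : 4 ≤ H := hH₀.trans hHH₀
  have hH4r : (4 : ℝ) ≤ H := by exact_mod_cast hH4
  have hH0 : (0 : ℝ) < H := by linarith
  have hHq : H ≤ q := by omega
  set Λ : ℝ := Real.log H with hΛ
  have hΛL : Λ ≤ L := Real.log_le_log hH0 (by exact_mod_cast hHq)
  have hΛ2 : L / 2 ≤ Λ := by
    have h1 : (1 - δ) * L ≤ Λ := by
      rw [hL, ← Real.log_rpow hq0]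
      exact Real.log_le_log (Real.rpow_pos_of_pos hq0 _) hH
    nlinarith
  have hΛ0 : 0 < Λ := by linarith
  -- the smooth part
  set z : ℕ := ⌊L / 8⌋₊ with hz
  have hz1 : 1 ≤ z := Nat.le_floor (by rw [Nat.cast_one]; linarith)
  have hz1r : (1 : ℝ) ≤ z := by exact_mod_cast hz1
  have hzL : L ≤ 16 * z := by
    have := Nat.lt_floor_add_one (L / 8)
    rw [← hz] at this
    linarith
  have hzL2 : (z : ℝ) ≤ L / 8 := Nat.floor_le (by positivity)
  set m : ℕ := sm z q with hm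
  have hmq : m ∣ q := sm_dvd z q
  have hm0 : 0 < m := sm_pos z q
  have hGGm0 : 0 < GG m := lt_of_lt_of_le one_pos (one_le_GG hm0)
  have hGm : g ≤ K₁ * GG m := by
    refine (GG_sm hz1 hqpos).trans ?_
    apply mul_le_mul_of_nonneg_right _ hGGm0.le
    apply Real.exp_le_exp.2
    rw [div_le_iff₀ (by linarith)]
    linarith
  have hmH : m ^ 2 ≤ H := by
    have h1 : ((m : ℝ)) ≤ 4 ^ z := by exact_mod_cast sm_le z q
    have h2 : ((m : ℝ)) ^ 2 ≤ Real.exp (3 * z) := by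
      calc ((m : ℝ)) ^ 2 ≤ (4 ^ z) ^ 2 := by gcongr
        _ = (16 : ℝ) ^ z := by rw [← pow_mul, mul_comm, pow_mul]; norm_num
        _ ≤ (Real.exp 3) ^ z := by
            gcongr
            have h3 := Real.exp_one_gt_d9
            have h4 : Real.exp 3 = Real.exp 1 ^ 3 := by rw [← Real.exp_nat_mul]; norm_num
            rw [h4]
            calc (16 : ℝ) ≤ 2.7182818283 ^ 3 := by norm_num
              _ ≤ _ := by gcongr
        _ = _ := by rw [← Real.exp_nat_mul]; ring_nf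
    have h3 : Real.exp (3 * z) ≤ (q : ℝ) ^ (1 - δ) := by
      rw [Real.rpow_def_of_pos hq0]
      apply Real.exp_le_exp.2
      rw [← hL]
      nlinarith
    have h4 := (h2.trans h3).trans hH
    exact_mod_cast h4
  have hmH1 : m ≤ H := by nlinarith
  -- the set T
  set M : ℝ := (T.card : ℝ) with hM
  have hxL : c * L / g ≤ x := hx
  have hx0 : (0 : ℝ) < x := lt_of_lt_of_le (by positivity) hxL
  have hM0 : 0 < M := lt_of_lt_of_le (by positivity) hTc
  have hT1 : ∀ n ∈ T, 1 ≤ n := fun n hn => by have := mem_Ioc.1 (hT hn); omega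
  have hX₅ : X₅ ≤ x := by
    have h1 : ((X₅ : ℝ) + 1) ≤ c * L / g := by
      rw [le_div_iff₀ hg0]
      have h2 : g ^ 2 ≤ C₆ * L := hGs q hq3
      have h3 : C₆ * (((X₅ : ℝ) + 1) / c) ^ 2 ≤ L := (le_max_right _ _).trans e3
      have h4 : (((X₅ : ℝ) + 1) * g) ^ 2 ≤ (c * L) ^ 2 := by
        calc (((X₅ : ℝ) + 1) * g) ^ 2 = ((X₅ : ℝ) + 1) ^ 2 * g ^ 2 := by ring
          _ ≤ ((X₅ : ℝ) + 1) ^ 2 * (C₆ * L) := by gcongr
          _ = (C₆ * (((X₅ : ℝ) + 1) / c) ^ 2) * (c ^ 2 * L) := by field_simp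
          _ ≤ L * (c ^ 2 * L) := by gcongr
          _ = _ := by ring
      exact (pow_le_pow_iff_left₀ (by positivity) (by positivity) (by norm_num)).1 h4
    have h5 : (X₅ : ℝ) ≤ x := by linarith
    exact_mod_cast h5
  have hMx : (x : ℝ) ≤ M / ρ := by rw [le_div_iff₀ hρ]; linarith
  have hM1 : 1 ≤ g * M / (c * ρ * L) := by
    rw [le_div_iff₀ (by positivity), one_mul]
    have h1 : c * L ≤ x * g := by rwa [div_le_iff₀ hg0] at hxL
    calc c * ρ * L = ρ * (c * L) := by ring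
      _ ≤ ρ * (x * g) := by gcongr
      _ = (ρ * x) * g := by ring
      _ ≤ M * g := by gcongr
      _ = _ := by ring
  -- first moment
  have hF : η * (M * H / L) ≤ ∑ β ∈ Ioc 0 H, Nq q B T β := by
    unfold Nq
    rw [sum_comm]
    have h1 : ∀ n ∈ T, η * (H / L) ≤ ∑ β ∈ Ioc 0 H, pr (((q * n + B : ℕ) : ℤ) + β) := by
      intro n hn
      have hn' := mem_Ioc.1 (hT hn)
      have hqn : q ≤ q * n := Nat.le_mul_of_pos_right q (hT1 n hn)
      refine le_trans ?_ (hwin H hHH₀ (((q * n + B : ℕ) : ℤ)) (by omega) ?_)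
      · gcongr
      · rw [Int.cast_natCast]
        have h2 : ((q * n + B : ℕ) : ℝ) ≤ 2 * (q : ℝ) ^ (1 + δ) := by
          push_cast
          have h3 : (n : ℝ) ≤ (q : ℝ) ^ δ := by
            refine le_trans ?_ hxq
            exact_mod_cast hn'.2
          have h4 : (B : ℝ) ≤ q := by exact_mod_cast (by omega : B ≤ q)
          have h5 : (1 : ℝ) ≤ (q : ℝ) ^ δ := Real.one_le_rpow hq1 hδ0.le
          have h6 : (q : ℝ) ^ (1 + δ) = q * (q : ℝ) ^ δ := by
            rw [Real.rpow_add hq0, Real.rpow_one]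
          rw [h6]
          nlinarith
        calc ((q * n + B : ℕ) : ℝ) ^ (1 - δ₀) ≤ (2 * (q : ℝ) ^ (1 + δ)) ^ (1 - δ₀) :=
              Real.rpow_le_rpow (Nat.cast_nonneg _) h2 (by linarith)
          _ = 2 ^ (1 - δ₀) * ((q : ℝ) ^ (1 + δ)) ^ (1 - δ₀) :=
              Real.mul_rpow (by norm_num) (by positivity)
          _ ≤ 2 * (q : ℝ) ^ (1 - 3 * δ₀ / 4) := by
              apply mul_le_mul _ _ (by positivity) (by norm_num)
              · calc (2 : ℝ) ^ (1 - δ₀) ≤ 2 ^ (1 : ℝ) :=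
                    Real.rpow_le_rpow_of_exponent_le (by norm_num) (by linarith)
                  _ = 2 := Real.rpow_one _
              · rw [← Real.rpow_mul hq0.le]
                apply Real.rpow_le_rpow_of_exponent_le hq1
                nlinarith
          _ ≤ (q : ℝ) ^ (δ₀ / 2) * (q : ℝ) ^ (1 - 3 * δ₀ / 4) := by gcongr
          _ = (q : ℝ) ^ (1 - δ₀ / 4) := by
              rw [← Real.rpow_add hq0]; congr 1; ring
          _ ≤ (q : ℝ) ^ (1 - δ) := Real.rpow_le_rpow_of_exponent_le hq1 (by linarith)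
          _ ≤ H := hH
    have h2 := sum_le_sum h1
    rw [sum_const, nsmul_eq_mul] at h2
    calc η * (M * H / L) = M * (η * (H / L)) := by ring
      _ ≤ _ := h2
  -- second moment
  have hS : ∑ β ∈ Ioc 0 H, Nq q B T β ^ 2 ≤ C₂ * (g * M ^ 2 * H / L ^ 2) := by
    have hexp : ∑ β ∈ Ioc 0 H, Nq q B T β ^ 2 = ∑ n₁ ∈ T, ∑ n₂ ∈ T, ∑ β ∈ Ioc 0 H,
        pr (((q * n₁ + B : ℕ) : ℤ) + β) * pr (((q * n₂ + B : ℕ) : ℤ) + β) := by
      unfold Nq
      simp_rw [sq, sum_mul_sum]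
      rw [sum_comm]
      apply sum_congr rfl
      intro n₁ _
      rw [sum_comm]
    rw [hexp]
    have hterm : ∀ n₁ ∈ T, ∀ n₂ ∈ T, ∑ β ∈ Ioc 0 H,
        pr (((q * n₁ + B : ℕ) : ℤ) + β) * pr (((q * n₂ + B : ℕ) : ℤ) + β) ≤
        (if n₁ = n₂ then 20 * (H / Λ) else 0) +
        C₄ * (g ^ 2 / GG m) * (H / Λ ^ 2) * GG ((n₁ : ℤ) - n₂).natAbs ^ 2 := by
      intro n₁ h₁ n₂ h₂
      have hoff : 0 ≤ C₄ * (g ^ 2 / GG m) * (H / Λ ^ 2) * GG ((n₁ : ℤ) - n₂).natAbs ^ 2 := by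
        positivity
      by_cases h12 : n₁ = n₂
      · subst h12
        rw [if_pos rfl]
        have h3 := single6 (H := H) (by omega) (G := ((q * n₁ + B : ℕ) : ℤ)) (by positivity)
        have h4 : ∑ β ∈ Ioc 0 H, pr (((q * n₁ + B : ℕ) : ℤ) + β) * pr (((q * n₁ + B : ℕ) : ℤ) + β) =
            ∑ β ∈ Ioc 0 H, pr (((q * n₁ + B : ℕ) : ℤ) + β) := sum_congr rfl fun β _ => pr_sq _
        rw [h4]
        linarith
      · rw [if_neg h12, zero_add]
        refine (hpair q m B H n₁ n₂ hqpos hmq hH4 hmH (hT1 n₁ h₁) (hT1 n₂ h₂) h12).trans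
          (le_of_eq ?_)
        ring
    refine (sum_le_sum fun n₁ h₁ => sum_le_sum fun n₂ h₂ => hterm n₁ h₁ n₂ h₂).trans ?_
    have e5 : ∑ n₁ ∈ T, ∑ n₂ ∈ T, ((if n₁ = n₂ then 20 * (H / Λ) else 0) +
        C₄ * (g ^ 2 / GG m) * (H / Λ ^ 2) * GG ((n₁ : ℤ) - n₂).natAbs ^ 2) =
        M * (20 * (H / Λ)) + C₄ * (g ^ 2 / GG m) * (H / Λ ^ 2) *
          ∑ n₁ ∈ T, ∑ n₂ ∈ T, GG ((n₁ : ℤ) - n₂).natAbs ^ 2 := by
      have h2 : ∀ n₁ ∈ T, ∑ n₂ ∈ T, ((if n₁ = n₂ then 20 * (H / Λ) else 0) +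
          C₄ * (g ^ 2 / GG m) * (H / Λ ^ 2) * GG ((n₁ : ℤ) - n₂).natAbs ^ 2) =
          20 * (H / Λ) + C₄ * (g ^ 2 / GG m) * (H / Λ ^ 2) *
            ∑ n₂ ∈ T, GG ((n₁ : ℤ) - n₂).natAbs ^ 2 := by
        intro n₁ h₁
        rw [sum_add_distrib, sum_ite_eq, if_pos h₁, ← mul_sum]
      rw [sum_congr rfl h2, sum_add_distrib, sum_const, nsmul_eq_mul, ← mul_sum]
    rw [e5]
    have h6 : ∑ n₁ ∈ T, ∑ n₂ ∈ T, GG ((n₁ : ℤ) - n₂).natAbs ^ 2 ≤ C₅ * (M / ρ) ^ 2 := by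
      refine (hmom x hX₅ y T hT).trans ?_
      gcongr
    have h7 : (H : ℝ) / Λ ≤ 2 * (H / L) := by
      rw [div_le_iff₀ hΛ0]
      calc (H : ℝ) = H * (L / L) := by field_simp
        _ = 2 * (H / L) * (L / 2) := by ring
        _ ≤ 2 * (H / L) * Λ := by gcongr
    have h8 : (H : ℝ) / Λ ^ 2 ≤ 4 * (H / L ^ 2) := by
      have h9 : (L / 2) ^ 2 ≤ Λ ^ 2 := by gcongr
      calc (H : ℝ) / Λ ^ 2 ≤ H / (L / 2) ^ 2 := by gcongr
        _ = _ := by field_simp; ring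
    have h10 : g ^ 2 / GG m ≤ K₁ * g := by
      rw [div_le_iff₀ hGGm0]
      calc g ^ 2 = g * g := sq g
        _ ≤ g * (K₁ * GG m) := by gcongr
        _ = _ := by ring
    calc M * (20 * (H / Λ)) + C₄ * (g ^ 2 / GG m) * (H / Λ ^ 2) *
          ∑ n₁ ∈ T, ∑ n₂ ∈ T, GG ((n₁ : ℤ) - n₂).natAbs ^ 2
        ≤ M * (20 * (2 * (H / L))) * (g * M / (c * ρ * L)) +
          C₄ * (K₁ * g) * (4 * (H / L ^ 2)) * (C₅ * (M / ρ) ^ 2) := by
          apply add_le_add
          · calc M * (20 * (H / Λ)) ≤ M * (20 * (2 * (H / L))) := by gcongr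
              _ = M * (20 * (2 * (H / L))) * 1 := (mul_one _).symm
              _ ≤ _ := by gcongr
          · gcongr
      _ = _ := by
          rw [hC₂]
          field_simp
          ring
  -- the good β
  set good := (Ioc 0 H).filter (fun β => κ₁ * (g * M / L) ≤ Nq q B T β ∧
    κ₁ * Nq q B T β ≤ g * M / L) with hgood
  have hD0 : 0 < M * H / L := by positivity
  have hbad : ∑ β ∈ (Ioc 0 H).filter (fun β => β ∉ good), Nq q B T β ≤ η / 2 * (M * H / L) := by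
    have h1 : ∀ β ∈ (Ioc 0 H).filter (fun β => β ∉ good), Nq q B T β ≤
        (if m.Coprime (B + β) then κ₁ * (g * M / L) else 0) +
        κ₁ * L / (g * M) * Nq q B T β ^ 2 := by
      intro β hβ
      rw [mem_filter] at hβ
      have hβ1 : 1 ≤ β := (mem_Ioc.1 hβ.1).1
      have hN0 := Nq_nonneg q B T β
      have hc2 : 0 ≤ κ₁ * L / (g * M) * Nq q B T β ^ 2 := by positivity
      by_cases hz0 : Nq q B T β = 0
      · rw [hz0]
        have : 0 ≤ (if m.Coprime (B + β) then κ₁ * (g * M / L) else 0) := by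
          split_ifs
          · positivity
          · exact le_rfl
        rw [hz0] at hc2
        linarith
      rw [if_pos (Nq_pos_coprime hqpos hmq hT1 hβ1 hz0)]
      have h2 : ¬ (κ₁ * (g * M / L) ≤ Nq q B T β ∧ κ₁ * Nq q B T β ≤ g * M / L) := by
        intro h
        exact hβ.2 (mem_filter.2 ⟨hβ.1, h⟩)
      rw [not_and_or, not_le, not_le] at h2
      rcases h2 with h2 | h2
      · linarith
      · have h3 : 1 ≤ κ₁ * L / (g * M) * Nq q B T β := by
          rw [div_lt_iff₀ hL0] at h2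
          rw [div_mul_eq_mul_div, le_div_iff₀ (by positivity)]
          nlinarith
        have h4 : Nq q B T β ≤ κ₁ * L / (g * M) * Nq q B T β ^ 2 := by
          calc Nq q B T β = 1 * Nq q B T β := (one_mul _).symm
            _ ≤ (κ₁ * L / (g * M) * Nq q B T β) * Nq q B T β := by gcongr
            _ = _ := by ring
        have h5 : 0 ≤ κ₁ * (g * M / L) := by positivity
        linarith
    refine (sum_le_sum h1).trans ?_
    rw [sum_add_distrib]
    have h2 : ∑ β ∈ (Ioc 0 H).filter (fun β => β ∉ good),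
        (if m.Coprime (B + β) then κ₁ * (g * M / L) else 0) ≤ η / 4 * (M * H / L) := by
      have h3 : ∑ β ∈ (Ioc 0 H).filter (fun β => β ∉ good),
          (if m.Coprime (B + β) then κ₁ * (g * M / L) else 0) ≤
          ∑ β ∈ Ioc 0 H, (if m.Coprime (B + β) then κ₁ * (g * M / L) else 0) := by
        apply sum_le_sum_of_subset_of_nonneg (filter_subset _ _)
        intro β _ _
        split_ifs
        · positivity
        · exact le_rfl
      have h4 : (((Ioc 0 H).filter (fun β => m.Coprime (B + β))).card : ℝ) ≤ 2 * H / GG m := by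
        refine le_trans ?_ (coprime_count (B := B) hm0 hmH1)
        have : ((Ioc 0 H).filter (fun β => m.Coprime (B + β))).card ≤
            ((Ioc B (B + H)).filter (fun b => m.Coprime b)).card := by
          apply card_le_card_of_injOn (fun β => B + β)
          · intro β hβ
            have hβ' := mem_filter.1 (mem_coe.1 hβ)
            have h5 := mem_Ioc.1 hβ'.1
            apply mem_coe.2
            rw [mem_filter, mem_Ioc]
            refine ⟨⟨?_, ?_⟩, hβ'.2⟩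
            · show B < B + β
              omega
            · show B + β ≤ B + H
              omega
          · intro β _ β' _ h
            simp only at h
            omega
        exact_mod_cast this
      refine h3.trans ?_
      rw [← sum_filter, sum_const, nsmul_eq_mul]
      calc (((Ioc 0 H).filter (fun β => m.Coprime (B + β))).card : ℝ) * (κ₁ * (g * M / L)) ≤
            2 * H / GG m * (κ₁ * (g * M / L)) := by gcongr
        _ = (κ₁ * 2) * (g / GG m) * (M * H / L) := by ring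
        _ ≤ (κ₁ * 2) * K₁ * (M * H / L) := by
            gcongr
            rw [div_le_iff₀ hGGm0]
            exact hGm
        _ = (κ₁ * (8 * K₁)) / 4 * (M * H / L) := by ring
        _ ≤ η / 4 * (M * H / L) := by gcongr
    have h3 : ∑ β ∈ (Ioc 0 H).filter (fun β => β ∉ good), κ₁ * L / (g * M) * Nq q B T β ^ 2 ≤
        η / 4 * (M * H / L) := by
      rw [← mul_sum]
      have h4 : ∑ β ∈ (Ioc 0 H).filter (fun β => β ∉ good), Nq q B T β ^ 2 ≤
          C₂ * (g * M ^ 2 * H / L ^ 2) := by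
        refine le_trans ?_ hS
        exact sum_le_sum_of_subset_of_nonneg (filter_subset _ _) fun b _ _ => by positivity
      calc κ₁ * L / (g * M) * ∑ β ∈ (Ioc 0 H).filter (fun β => β ∉ good), Nq q B T β ^ 2 ≤
            κ₁ * L / (g * M) * (C₂ * (g * M ^ 2 * H / L ^ 2)) := by gcongr
        _ = (κ₁ * (4 * C₂)) / 4 * (M * H / L) := by field_simp
        _ ≤ η / 4 * (M * H / L) := by gcongr
    linarith
  have hg1' : (η / 2) * (M * H / L) ≤ ∑ β ∈ (Ioc 0 H).filter (fun β => β ∈ good), Nq q B T β := by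
    have h1 := sum_filter_add_sum_filter_not (Ioc 0 H) (fun β => β ∈ good) (Nq q B T)
    linarith
  have hg2 : ∑ β ∈ (Ioc 0 H).filter (fun β => β ∈ good), Nq q B T β ≤
      (good.card : ℝ) * (g * M / L / κ₁) := by
    have h1 : ∀ β ∈ (Ioc 0 H).filter (fun β => β ∈ good), Nq q B T β ≤ g * M / L / κ₁ := by
      intro β hβ
      have h2 := (mem_filter.1 ((mem_filter.1 hβ).2)).2.2
      rw [le_div_iff₀ hκ₁0]
      linarith
    refine (sum_le_sum h1).trans ?_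
    rw [sum_const, nsmul_eq_mul]
    have h2 : (((Ioc 0 H).filter (fun β => β ∈ good)).card : ℝ) ≤ good.card := by
      have : ((Ioc 0 H).filter (fun β => β ∈ good)).card ≤ good.card := by
        apply card_le_card
        intro b hb
        exact (mem_filter.1 hb).2
      exact_mod_cast this
    gcongr
  have h9 := hg1'.trans hg2
  have h10 : κ₁ * (η / 2) * (H / g) ≤ good.card := by
    have e7 : (good.card : ℝ) * (g * M / L / κ₁) = (good.card : ℝ) / κ₁ * (g * (M / L)) := by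
      field_simp
    have e8 : η / 2 * (M * H / L) = (η / 2 * (H / g)) * (g * (M / L)) := by
      field_simp
    rw [e7, e8] at h9
    have h11 := le_of_mul_le_mul_right h9 (by positivity)
    rw [le_div_iff₀ hκ₁0] at h11
    linarith
  refine (mul_le_mul_of_nonneg_right (min_le_right _ _) (by positivity)).trans (h10.trans ?_)
  have hsub : good.card ≤ ((Ioc 0 H).filter (fun β =>
      min κ₁ (κ₁ * (η / 2)) * (g * M / L) ≤ Nq q B T β ∧
      min κ₁ (κ₁ * (η / 2)) * Nq q B T β ≤ g * M / L)).card := by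
    apply card_le_card
    intro β hβ
    have hβ' := mem_filter.1 hβ
    rw [mem_filter]
    have hN0 := Nq_nonneg q B T β
    refine ⟨hβ'.1, le_trans ?_ hβ'.2.1, le_trans ?_ hβ'.2.2⟩
    · exact mul_le_mul_of_nonneg_right (min_le_left _ _) (by positivity)
    · exact mul_le_mul_of_nonneg_right (min_le_left _ _) hN0
  exact_mod_cast hsub

end Pool.Agent.W218.SI
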